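import Pool.Agent.Y130.Alt

/-!
# Alternating variables, with the exceptional case
-/

set_option linter.unusedSectionVars false

open Finset Function

namespace Pool.Agent.Y130.MM

open Pool.Agent.TH125.Nod

universe u v

variable {K : Type u} [Field K] {B : Type} [Fintype B] [DecidableEq B] {ι : Type} [DecidableEq ι]
  {M : Type v} [AddCommGroup M] [Module K M]

section alt
variable {S : Type} [Fintype S] [DecidableEq S] {κ : B → ι} {Q : Matrix B B K} {c : S → ι}
  {i : ι} [CharZero K]

/-- The induction on the number of alternating variables. -/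
theorem alt_mem1 (T P : Submodule K ((S → B) → M))
    (hT : ∀ a b, c a = i → c b = i → ∀ f ∈ T, sw (K := K) a b f ∈ T) (n : ℕ)
    (hn : (univ.filter fun b => κ b = i).card = n) (A : Finset S) (hA : A = univ.filter (c · = i))
    (hP : ∀ a b, c a = i → c b = i → ∀ f ∈ P, sw (K := K) a b f ∈ P)
    (ε : ℤ) (hε : ε ≤ 0 ∨ (ε = 1 ∧ (A.card = n → ∀ w ∈ P, Sup κ c w →
      (∀ a ∈ A, ∀ b ∈ A, a ≠ b → sw (K := K) a b w + w ∈ T) → w ∈ T))) (d : ℕ) :
    ∀ A' ⊆ A, A'.Nonempty → n + 1 ≤ A'.card + d → ∀ w ∈ P, Sup κ c w →
      (∀ a ∈ A, (((n : ℤ) - ε : ℤ) : K) • w + ∑ b ∈ A.erase a, sw (K := K) a b w ∈ T) →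
      (∀ a ∈ A', ∀ b ∈ A', a ≠ b → sw (K := K) a b w + w ∈ T) → w ∈ T := by
  have hAi : ∀ a ∈ A, c a = i := fun a ha => by
    rw [hA, Finset.mem_filter] at ha
    exact ha.2
  have hq : ∀ a ∈ A, ∀ b ∈ A, ∀ x y : (S → B) → M, T.mkQ x = T.mkQ y →
      T.mkQ (sw (K := K) a b x) = T.mkQ (sw (K := K) a b y) := by
    intro a ha b hb x y hxy
    rw [Submodule.mkQ_apply, Submodule.mkQ_apply, Submodule.Quotient.eq] at hxy ⊢
    have := hT a b (hAi a ha) (hAi b hb) _ hxy
    rwa [sw, map_sub] at this
  have hq' : ∀ x y : (S → B) → M, x + y ∈ T ↔ T.mkQ x = - T.mkQ y := by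
    intro x y
    rw [← map_neg, Submodule.mkQ_apply, Submodule.mkQ_apply, Submodule.Quotient.eq, sub_neg_eq_add]
  induction d with
  | zero =>
    intro A' hA' _ hcard w _ hw _ halt
    exact pigeon T hT (fun a ha => hAi a (hA' ha)) (by omega) hw halt
  | succ d ih =>
    intro A' hA' hne hcard w hwP hw hJ halt
    by_cases hlt : n + 1 ≤ A'.card
    · exact pigeon T hT (fun a ha => hAi a (hA' ha)) (by omega) hw halt
    have hlt' : A'.card < n + 1 := not_le.1 hlt
    -- the alternating sum over one more variable
    have hstep : ∀ j ∈ A \ A', w - ∑ a ∈ A', sw (K := K) a j w ∈ T := by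
      intro j hj
      rw [Finset.mem_sdiff] at hj
      have hji := hAi j hj.1
      have hswA : ∀ a ∈ A', ∀ x, Equiv.swap a j x ∈ A ↔ x ∈ A := by
        intro a ha x
        by_cases h1 : x = a
        · rw [h1, Equiv.swap_apply_left]
          exact ⟨fun _ => hA' ha, fun _ => hj.1⟩
        by_cases h2 : x = j
        · rw [h2, Equiv.swap_apply_right]
          exact ⟨fun _ => hj.1, fun _ => hA' ha⟩
        rw [Equiv.swap_apply_of_ne_of_ne h1 h2]
      refine ih (insert j A') ?_ ⟨j, Finset.mem_insert_self _ _⟩ ?_ _ ?_ ?_ ?_ ?_
      · intro x hx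
        rw [Finset.mem_insert] at hx
        rcases hx with rfl | hx
        · exact hj.1
        · exact hA' hx
      · rw [Finset.card_insert_of_notMem hj.2]
        omega
      · exact P.sub_mem hwP (P.sum_mem fun a ha => hP a j (hAi a (hA' ha)) hji w hwP)
      · intro J hJ'
        rw [Pi.sub_apply, Finset.sum_apply, hw J hJ', Finset.sum_eq_zero, sub_zero]
        intro a ha
        exact Sup_rho (K := K) (c_swap (hAi a (hA' ha)) hji) hw J hJ'
      · intro a ha
        have h1 : ∀ l ∈ A', (((n : ℤ) - ε : ℤ) : K) • sw (K := K) l j w +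
            ∑ b ∈ A.erase a, sw (K := K) a b (sw (K := K) l j w) ∈ T := by
          intro l hl
          have h2 := jm_rho (K := K) A (Equiv.swap l j) (hswA l hl) a w
          rw [h2, sw, ← map_smul, ← map_add]
          apply hT l j (hAi l (hA' hl)) hji
          apply hJ
          rw [← hswA l hl, ← Equiv.Perm.mul_apply, mul_inv_cancel]
          exact ha
        have h3 := T.sub_mem (hJ a ha) (T.sum_mem h1)
        convert h3 using 1
        simp only [sw, map_sub, map_sum, Finset.sum_sub_distrib, Finset.sum_add_distrib, smul_sub,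
          Finset.smul_sum]
        rw [Finset.sum_comm (s := A.erase a) (t := A')]
        abel
      · -- alternating
        have hsym : ∀ a ∈ A', sw (K := K) a j (w - ∑ l ∈ A', sw (K := K) l j w) +
            (w - ∑ l ∈ A', sw (K := K) l j w) ∈ T := by
          intro a ha
          rw [hq']
          simp only [map_sub, map_sum]
          rw [← Finset.add_sum_erase A' _ ha, ← Finset.add_sum_erase A' (fun l =>
            T.mkQ (sw (K := K) l j w)) ha]
          have h1 : sw (K := K) a j (sw (K := K) a j w) = w := by
            show rho (K := K) _ (rho (K := K) _ w) = w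
            rw [← rho_mul, Equiv.swap_mul_self, rho_one]
          have h2 : ∀ l ∈ A'.erase a, T.mkQ (sw (K := K) a j (sw (K := K) l j w)) =
              - T.mkQ (sw (K := K) l j w) := by
            intro l hl
            rw [Finset.mem_erase] at hl
            have h3 : sw (K := K) a j (sw (K := K) l j w) =
                sw (K := K) l j (sw (K := K) a l w) := by
              show rho (K := K) _ (rho (K := K) _ w) = rho (K := K) _ (rho (K := K) _ w)
              rw [← rho_mul, ← rho_mul, Equiv.mul_swap_eq_swap_mul (Equiv.swap l j) a l,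
                Equiv.swap_apply_of_ne_of_ne (x := a) (Ne.symm hl.1)
                  (fun h : a = j => hj.2 (h ▸ ha)),
                Equiv.swap_apply_left]
            have h4 : T.mkQ (sw (K := K) a l w) = T.mkQ (-w) := by
              rw [map_neg, ← hq']
              exact halt a ha l hl.2 (Ne.symm hl.1)
            rw [h3, hq l (hA' hl.2) j hj.1 _ _ h4]
            simp only [sw, map_neg]
          simp only [sw] at h1 h2 ⊢
          rw [h1, Finset.sum_congr rfl h2, Finset.sum_neg_distrib]
          abel
        have hin : ∀ a ∈ A', ∀ b ∈ A', a ≠ b →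
            sw (K := K) a b (w - ∑ l ∈ A', sw (K := K) l j w) +
            (w - ∑ l ∈ A', sw (K := K) l j w) ∈ T := by
          intro a ha b hb hab
          rw [hq']
          have h0 : T.mkQ (sw (K := K) a b w) = T.mkQ (-w) := by
            rw [map_neg, ← hq']
            exact halt a ha b hb hab
          have h1 : ∀ l ∈ A', T.mkQ (sw (K := K) a b (sw (K := K) l j w)) =
              - T.mkQ (sw (K := K) (Equiv.swap a b l) j w) := by
            intro l hl
            have h3 : sw (K := K) a b (sw (K := K) l j w) =
                sw (K := K) (Equiv.swap a b l) j (sw (K := K) a b w) := by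
              show rho (K := K) _ (rho (K := K) _ w) = rho (K := K) _ (rho (K := K) _ w)
              rw [← rho_mul, ← rho_mul, Equiv.mul_swap_eq_swap_mul,
                Equiv.swap_apply_of_ne_of_ne (x := j) (fun h => hj.2 (h ▸ ha))
                  (fun h => hj.2 (h ▸ hb))]
            have hl' : Equiv.swap a b l ∈ A' := by
              by_cases e1 : l = a
              · rw [e1, Equiv.swap_apply_left]
                exact hb
              by_cases e2 : l = b
              · rw [e2, Equiv.swap_apply_right]
                exact ha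
              rw [Equiv.swap_apply_of_ne_of_ne e1 e2]
              exact hl
            rw [h3, hq _ (hA' hl') j hj.1 _ _ h0]
            simp only [sw, map_neg]
          have h2 : ∑ l ∈ A', T.mkQ (sw (K := K) (Equiv.swap a b l) j w) =
              ∑ l ∈ A', T.mkQ (sw (K := K) l j w) := by
            refine Finset.sum_bij (fun l _ => Equiv.swap a b l) ?_ ?_ ?_ ?_
            · intro l hl
              show Equiv.swap a b l ∈ A'
              by_cases e1 : l = a
              · rw [e1, Equiv.swap_apply_left]
                exact hb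
              by_cases e2 : l = b
              · rw [e2, Equiv.swap_apply_right]
                exact ha
              rw [Equiv.swap_apply_of_ne_of_ne e1 e2]
              exact hl
            · intro l _ l' _ h
              exact (Equiv.swap a b).injective h
            · intro l hl
              refine ⟨Equiv.swap a b l, ?_, Equiv.swap_apply_self _ _ _⟩
              by_cases e1 : l = a
              · rw [e1, Equiv.swap_apply_left]
                exact hb
              by_cases e2 : l = b
              · rw [e2, Equiv.swap_apply_right]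
                exact ha
              rw [Equiv.swap_apply_of_ne_of_ne e1 e2]
              exact hl
            · intro l _
              rfl
          simp only [map_sub, map_sum]
          simp only [sw] at h0 h1 h2 ⊢
          rw [h0, Finset.sum_congr rfl h1, Finset.sum_neg_distrib, h2, map_neg]
          abel
        intro a ha b hb hab
        rw [Finset.mem_insert] at ha hb
        rcases ha with rfl | ha
        · rcases hb with rfl | hb
          · exact absurd rfl hab
          · have := hsym b hb
            rwa [sw, Equiv.swap_comm] at this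
        · rcases hb with rfl | hb
          · exact hsym a ha
          · exact hin a ha b hb hab
    -- the final count
    have hsumT := T.sum_mem (fun a (ha : a ∈ A') => hJ a (hA' ha))
    rw [← Submodule.ker_mkQ T, LinearMap.mem_ker, map_sum] at hsumT
    have h1 : ∀ a ∈ A', T.mkQ ((((n : ℤ) - ε : ℤ) : K) • w + ∑ b ∈ A.erase a, sw (K := K) a b w) =
        (((n : ℤ) - ε : ℤ) : K) • T.mkQ w - (((A'.card : ℤ) - 1 : ℤ) : K) • T.mkQ w +
          ∑ b ∈ A \ A', T.mkQ (sw (K := K) a b w) := by
      intro a ha
      have hsplit : A.erase a = A'.erase a ∪ (A \ A') := by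
        ext x
        simp only [Finset.mem_erase, Finset.mem_union, Finset.mem_sdiff]
        constructor
        · rintro ⟨h1, h2⟩
          by_cases hx : x ∈ A'
          · exact Or.inl ⟨h1, hx⟩
          · exact Or.inr ⟨h2, hx⟩
        · rintro (⟨h1, h2⟩ | ⟨h1, h2⟩)
          · exact ⟨h1, hA' h2⟩
          · exact ⟨fun h => h2 (h ▸ ha), h1⟩
      have hdis : Disjoint (A'.erase a) (A \ A') := by
        rw [Finset.disjoint_left]
        intro x hx hx'
        rw [Finset.mem_erase] at hx
        rw [Finset.mem_sdiff] at hx'
        exact hx'.2 hx.2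
      rw [map_add, map_smul, map_sum, hsplit, Finset.sum_union hdis]
      have h2 : ∀ b ∈ A'.erase a, T.mkQ (sw (K := K) a b w) = - T.mkQ w := by
        intro b hb
        rw [Finset.mem_erase] at hb
        rw [← hq']
        exact halt a ha b hb.2 (Ne.symm hb.1)
      rw [Finset.sum_congr rfl h2, Finset.sum_const, Finset.card_erase_of_mem ha]
      have hpos : 1 ≤ A'.card := Finset.card_pos.2 hne
      have h3 : (((A'.card : ℤ) - 1 : ℤ) : K) = ((A'.card - 1 : ℕ) : K) := by
        rw [Nat.cast_sub hpos]
        push_cast
        ring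
      rw [h3, ← Nat.cast_smul_eq_nsmul K]
      module
    rw [Finset.sum_congr rfl h1, Finset.sum_add_distrib, Finset.sum_const,
      Finset.sum_comm] at hsumT
    have h2 : ∀ j ∈ A \ A', ∑ a ∈ A', T.mkQ (sw (K := K) a j w) = T.mkQ w := by
      intro j hj
      have := hstep j hj
      rw [← Submodule.ker_mkQ T, LinearMap.mem_ker, map_sub, map_sum, sub_eq_zero] at this
      exact this.symm
    rw [Finset.sum_congr rfl h2, Finset.sum_const, ← Nat.cast_smul_eq_nsmul K,
      ← Nat.cast_smul_eq_nsmul K] at hsumT
    have hcc : (A \ A').card + A'.card = A.card := Finset.card_sdiff_add_card_eq_card hA'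
    have hmA : A'.card ≤ A.card := Finset.card_le_card hA'
    have hpos : 1 ≤ A'.card := Finset.card_pos.2 hne
    have h3 : ((((A'.card : ℤ) * ((n : ℤ) - ε - (A'.card - 1)) + (A \ A').card : ℤ)) : K) •
        T.mkQ w = 0 := by
      rw [← hsumT]
      push_cast
      module
    by_cases hex : ε = 1 ∧ A'.card = n ∧ (A \ A').card = 0
    · have h5 : A' = A := by
        refine Finset.Subset.antisymm hA' ?_
        rw [← Finset.sdiff_eq_empty_iff_subset, ← Finset.card_eq_zero]
        exact hex.2.2
      rcases hε with h | ⟨_, h⟩
      · omega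
      · subst h5
        exact h hex.2.1 w hwP hw halt
    have h4 : (((A'.card : ℤ) * ((n : ℤ) - ε - (A'.card - 1)) + (A \ A').card : ℤ)) ≠ 0 := by
      have h6 : 0 < (A'.card : ℤ) := by omega
      have h5 : 0 ≤ (n : ℤ) - ε - (A'.card - 1) := by
        rcases hε with h | ⟨h, h'⟩ <;> omega
      by_cases h7 : (n : ℤ) - ε - (A'.card - 1) = 0
      · have h8 : ε = 1 ∧ A'.card = n := by
          rcases hε with h | ⟨h, h'⟩ <;> omega
        rw [h7, mul_zero, zero_add]
        intro h9
        exact hex ⟨h8.1, h8.2, by exact_mod_cast h9⟩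
      · have h9 : 0 < (n : ℤ) - ε - (A'.card - 1) := lt_of_le_of_ne h5 (Ne.symm h7)
        positivity
    rw [smul_eq_zero, Int.cast_eq_zero] at h3
    rcases h3 with h3 | h3
    · exact absurd h3 h4
    · rwa [← LinearMap.mem_ker, Submodule.ker_mkQ] at h3

end alt

end Pool.Agent.Y130.MM
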