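import Pool.Agent.Y130.MM.Alt1

/-!
# The antisymmetrization in some of the variables
-/

set_option linter.unusedSectionVars false

open Module Finset Function

namespace Pool.Agent.Y130.MM

open Pool.Agent.Y130 Pool.Agent.TH125.Nod

variable {K : Type} [Field K] [CharZero K] {J : Type} [Fintype J] [DecidableEq J]
  {C : Type} [DecidableEq C] {S : Type} [Fintype S] [DecidableEq S]

/-- the antisymmetrization in the variables of `A` -/
noncomputable def altA (A : Finset S) : ((S → J) → K) →ₗ[K] ((S → J) → K) :=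
  ∑ π : Equiv.Perm {x // x ∈ A}, ((Equiv.Perm.sign π : ℤ) : K) •
    rho (K := K) (M := K) (B := J) (Equiv.Perm.ofSubtype π)

theorem altA_apply (A : Finset S) (f : (S → J) → K) :
    altA A f = ∑ π : Equiv.Perm {x // x ∈ A}, ((Equiv.Perm.sign π : ℤ) : K) •
      rho (K := K) (Equiv.Perm.ofSubtype π) f := by
  rw [altA, LinearMap.sum_apply]
  rfl

theorem sw_eq {A : Finset S} {a b : S} (ha : a ∈ A) (hb : b ∈ A) (f : (S → J) → K) :
    sw (K := K) a b f = rho (K := K)
      (Equiv.Perm.ofSubtype (Equiv.swap (⟨a, ha⟩ : {x // x ∈ A}) ⟨b, hb⟩)) f := by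
  rw [Equiv.Perm.ofSubtype_swap_eq]

theorem altA_rho (A : Finset S) (τ : Equiv.Perm {x // x ∈ A}) (f : (S → J) → K) :
    altA A (rho (K := K) (Equiv.Perm.ofSubtype τ) f) =
      ((Equiv.Perm.sign τ : ℤ) : K) • altA A f := by
  rw [altA_apply, altA_apply, Finset.smul_sum]
  refine Fintype.sum_equiv (Equiv.mulRight τ) _ _ fun π => ?_
  rw [Equiv.coe_mulRight, ← rho_mul, ← map_mul, smul_smul, Equiv.Perm.sign_mul]
  congr 1
  have h : ((Equiv.Perm.sign τ : ℤ) : K) * ((Equiv.Perm.sign τ : ℤ) : K) = 1 := by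
    rw [← Int.cast_mul]
    rcases Int.units_eq_one_or (Equiv.Perm.sign τ) with h | h <;> rw [h] <;> simp
  push_cast
  linear_combination (-((Equiv.Perm.sign π : ℤ) : K)) * h

theorem altA_ker {A : Finset S} {a b : S} (ha : a ∈ A) (hb : b ∈ A) {f : (S → J) → K}
    (hf : f ∈ LinearMap.ker (altA (K := K) (J := J) A)) :
    sw (K := K) a b f ∈ LinearMap.ker (altA (K := K) (J := J) A) := by
  rw [LinearMap.mem_ker] at hf ⊢
  rw [sw_eq ha hb, altA_rho, hf, smul_zero]

theorem rho_of_alt {A : Finset S} {w : (S → J) → K}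
    (h : ∀ a ∈ A, ∀ b ∈ A, a ≠ b → sw (K := K) a b w + w = 0) (π : Equiv.Perm {x // x ∈ A}) :
    rho (K := K) (Equiv.Perm.ofSubtype π) w = ((Equiv.Perm.sign π : ℤ) : K) • w := by
  induction π using Equiv.Perm.swap_induction_on with
  | one =>
    rw [map_one, rho_one, map_one]
    simp
  | swap_mul f x y hxy ih =>
    rw [map_mul, rho_mul, ih, map_smul, ← sw_eq x.2 y.2, Equiv.Perm.sign_mul,
      Equiv.Perm.sign_swap hxy]
    have h1 := h x x.2 y y.2 (fun h' => hxy (Subtype.ext h'))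
    rw [eq_neg_of_add_eq_zero_left h1]
    push_cast
    simp

theorem eq_zero_of_alt {A : Finset S} {w : (S → J) → K}
    (h : ∀ a ∈ A, ∀ b ∈ A, a ≠ b → sw (K := K) a b w + w = 0)
    (hw : w ∈ LinearMap.ker (altA (K := K) (J := J) A)) : w = 0 := by
  rw [LinearMap.mem_ker, altA_apply] at hw
  have h1 : ∀ π : Equiv.Perm {x // x ∈ A}, ((Equiv.Perm.sign π : ℤ) : K) •
      rho (K := K) (Equiv.Perm.ofSubtype π) w = w := by
    intro π
    rw [rho_of_alt h, smul_smul, ← Int.cast_mul]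
    rcases Int.units_eq_one_or (Equiv.Perm.sign π) with h | h <;> rw [h] <;> simp
  rw [Finset.sum_congr rfl fun π _ => h1 π, Finset.sum_const, ← Nat.cast_smul_eq_nsmul K,
    smul_eq_zero, Nat.cast_eq_zero, Finset.card_univ] at hw
  exact hw.resolve_left Fintype.card_ne_zero

end Pool.Agent.Y130.MM
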