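import Pool.Agent.Y130.MM.AltA
import Pool.Agent.Y130.Gen

/-!
# Forms killed by the Lie algebras of the blocks, and their contractions
-/

set_option linter.unusedSectionVars false

open Module Finset Function

namespace Pool.Agent.Y130.MM

open Pool.Agent.Y130 Pool.Agent.TH125.Gal Pool.Agent.TH125.Nod

variable {K : Type} [Field K] [CharZero K] {T : Type} [AddCommGroup T] [Module K T]
  {S : Type} [Fintype S] [DecidableEq S] {C : Type} {B : T →ₗ[K] T →ₗ[K] K} {s : K}
  {U : C → Submodule K T} {star : C → C}

/-- The form is killed by the Lie algebras of the blocks. -/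
def LInv (B : T →ₗ[K] T →ₗ[K] K) (s : K) (U : C → Submodule K T) (star : C → C)
    (ψ : MultilinearMap K (fun _ : S => T) K) : Prop :=
  ∀ c, ∀ x ∈ U (star c), ∀ y ∈ U c, Kill (pp B s x y) ψ

theorem Kill_add {X Y : End K T} {ψ : MultilinearMap K (fun _ : S => T) K} (hX : Kill X ψ)
    (hY : Kill Y ψ) : Kill (X + Y) ψ := by
  intro v
  have h : ∀ j, ψ (update v j ((X + Y) (v j))) = ψ (update v j (X (v j))) +
      ψ (update v j (Y (v j))) := fun j => by
    rw [LinearMap.add_apply, MultilinearMap.map_update_add]
  rw [Finset.sum_congr rfl fun j _ => h j, Finset.sum_add_distrib, hX v, hY v, add_zero]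

theorem Kill_smul {X : End K T} (r : K) {ψ : MultilinearMap K (fun _ : S => T) K}
    (hX : Kill X ψ) : Kill (r • X) ψ := by
  intro v
  have h : ∀ j, ψ (update v j ((r • X) (v j))) = r • ψ (update v j (X (v j))) := fun j => by
    rw [LinearMap.smul_apply, MultilinearMap.map_update_smul]
  rw [Finset.sum_congr rfl fun j _ => h j, ← Finset.smul_sum, hX v, smul_zero]

theorem Kill_zero {ψ : MultilinearMap K (fun _ : S => T) K} : Kill (0 : End K T) ψ := by
  intro v
  refine Finset.sum_eq_zero fun j _ => ?_
  rw [LinearMap.zero_apply]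
  exact ψ.map_coord_zero j (update_self _ _ _)

/-- the values of a form on a basis -/
def fn {J : Type} (t : J → T) (ψ : MultilinearMap K (fun _ : S => T) K) : (S → J) → K :=
  fun r => ψ fun j => t (r j)

theorem update_comp {J : Type} (t : J → T) (r : S → J) (j : S) (a : J) :
    (fun i => t (update r j a i)) = update (fun i => t (r i)) j (t a) := by
  funext i
  by_cases hi : i = j
  · subst hi
    rw [update_self, update_self]
  · rw [update_of_ne hi, update_of_ne hi]

theorem sum_pp {J : Type} (t : J → T) (ψ : MultilinearMap K (fun _ : S => T) K) (r : S → J)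
    (u v : J) : ∑ j, ψ (update (fun i => t (r i)) j (pp B s (t v) (t u) (t (r j)))) =
      ∑ j, (B (t v) (t (r j)) • fn t ψ (update r j u) -
        (s * B (t u) (t (r j))) • fn t ψ (update r j v)) := by
  refine Finset.sum_congr rfl fun j _ => ?_
  rw [pp_apply, MultilinearMap.map_update_sub, MultilinearMap.map_update_smul,
    MultilinearMap.map_update_smul]
  unfold fn
  rw [update_comp, update_comp]

theorem LInv.invS {J : Type} [Fintype J] [DecidableEq J] {t : J → T} {κ : J → C}
    (ht : ∀ j, t j ∈ U (κ j)) {ψ : MultilinearMap K (fun _ : S => T) K}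
    (h : LInv B s U star ψ) :
    InvS κ (Matrix.of fun i j => B (t i) (t j)) star s (fn t ψ) := by
  intro u v huv r
  have h1 := h (κ u) (t v) (by rw [← huv]; exact ht v) (t u) (ht u) (fun j => t (r j))
  rw [sum_pp] at h1
  exact h1

/-- The derivation attached to an operator. -/
noncomputable def der (Y : End K T) (ψ : MultilinearMap K (fun _ : S => T) K) :
    MultilinearMap K (fun _ : S => T) K :=
  ∑ j, ψ.compLinearMap fun l => if l = j then Y else LinearMap.id

theorem der_apply (Y : End K T) (ψ : MultilinearMap K (fun _ : S => T) K) (v : S → T) :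
    der Y ψ v = ∑ j, ψ (update v j (Y (v j))) := by
  rw [der, MultilinearMap.sum_apply]
  refine Finset.sum_congr rfl fun j _ => ?_
  rw [MultilinearMap.compLinearMap_apply]
  congr 1
  funext l
  by_cases h : l = j
  · subst h
    rw [if_pos rfl, update_self]
  · rw [if_neg h, update_of_ne h, LinearMap.id_apply]

theorem kill_of_basis {J : Type} [Fintype J] (t : Basis J K T) {Y : End K T}
    {ψ : MultilinearMap K (fun _ : S => T) K}
    (h : ∀ r : S → J, ∑ j, ψ (update (fun i => t (r i)) j (Y (t (r j)))) = 0) : Kill Y ψ := by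
  have h1 : der Y ψ = 0 := by
    refine Basis.ext_multilinear (fun _ => t) fun r => ?_
    rw [der_apply, MultilinearMap.zero_apply]
    exact h r
  intro v
  rw [← der_apply, h1, MultilinearMap.zero_apply]

theorem LInv.of_invS {J : Type} [Fintype J] [DecidableEq J] {t : Basis J K T} {κ : J → C}
    (hsp : ∀ c, ∀ x ∈ U c, x ∈ Submodule.span K (t '' {j | κ j = c}))
    {ψ : MultilinearMap K (fun _ : S => T) K} (hstar : ∀ c, star (star c) = c)
    (h : InvS κ (Matrix.of fun i j => B (t i) (t j)) star s (fn t ψ)) :
    LInv B s U star ψ := by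
  intro c x hx y hy
  have hx' := hsp _ x hx
  have hy' := hsp _ y hy
  clear hx hy
  induction hx' using Submodule.span_induction with
  | mem x hx1 =>
    obtain ⟨v, hv, rfl⟩ := hx1
    induction hy' using Submodule.span_induction with
    | mem y hy1 =>
      obtain ⟨u, hu, rfl⟩ := hy1
      refine kill_of_basis t fun r => ?_
      rw [sum_pp]
      have hv' : κ v = star c := hv
      have hu' : κ u = c := hu
      exact h u v (by rw [hv', hu']) r
    | zero => rw [pp_zero_right]; exact Kill_zero
    | add a b _ _ ha hb => rw [pp_add_right]; exact Kill_add ha hb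
    | smul r a _ ha => rw [pp_smul_right]; exact Kill_smul r ha
  | zero => rw [pp_zero_left]; exact Kill_zero
  | add a b _ _ ha hb => rw [pp_add_left]; exact Kill_add ha hb
  | smul r a _ ha => rw [pp_smul_left]; exact Kill_smul r ha

/-- fixing two variables -/
def fix2 (ψ : MultilinearMap K (fun _ : S => T) K) (a b : S) (x y : T) :
    MultilinearMap K (fun _ : {z : S // z ≠ a ∧ z ≠ b} => T) K :=
  ψ.domDomRestrict (fun z => z ≠ a ∧ z ≠ b) (fun z => if z.1 = a then x else y)

theorem fix2_apply (ψ : MultilinearMap K (fun _ : S => T) K) (a b : S) (x y : T)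
    (v : {z : S // z ≠ a ∧ z ≠ b} → T) : fix2 ψ a b x y v = ψ (ext2 a b x y v) := rfl

theorem ext2_update_a (a b : S) (x x' y : T) (v : {z : S // z ≠ a ∧ z ≠ b} → T) :
    ext2 a b x' y v = update (ext2 a b x y v) a x' := by
  funext z
  by_cases h1 : z = a
  · subst h1
    rw [update_self]
    unfold ext2
    rw [dif_neg (fun h => h.1 rfl), if_pos rfl]
  · rw [update_of_ne h1]
    unfold ext2
    by_cases h2 : z ≠ a ∧ z ≠ b
    · rw [dif_pos h2, dif_pos h2]
    · rw [dif_neg h2, dif_neg h2, if_neg h1, if_neg h1]

theorem ext2_update_b {a b : S} (hab : a ≠ b) (x y y' : T) (v : {z : S // z ≠ a ∧ z ≠ b} → T) :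
    ext2 a b x y' v = update (ext2 a b x y v) b y' := by
  funext z
  by_cases h1 : z = b
  · subst h1
    rw [update_self]
    unfold ext2
    rw [dif_neg (fun h => h.2 rfl), if_neg (Ne.symm hab)]
  · rw [update_of_ne h1]
    unfold ext2
    by_cases h2 : z ≠ a ∧ z ≠ b
    · rw [dif_pos h2, dif_pos h2]
    · rw [dif_neg h2, dif_neg h2]
      by_cases h3 : z = a
      · rw [if_pos h3, if_pos h3]
      · exact absurd ⟨h3, h1⟩ h2

/-- The bilinear form in the two distinguished variables. -/
noncomputable def bil (ψ : MultilinearMap K (fun _ : S => T) K) {a b : S} (hab : a ≠ b)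
    (v : {z : S // z ≠ a ∧ z ≠ b} → T) : T →ₗ[K] T →ₗ[K] K :=
  LinearMap.mk₂ K (fun x y => ψ (ext2 a b x y v))
    (fun x x' y => by
      rw [ext2_update_a a b 0 (x + x'), ext2_update_a a b 0 x, ext2_update_a a b 0 x',
        MultilinearMap.map_update_add])
    (fun r x y => by
      rw [ext2_update_a a b 0 (r • x), ext2_update_a a b 0 x, MultilinearMap.map_update_smul])
    (fun x y y' => by
      rw [ext2_update_b hab x 0 (y + y'), ext2_update_b hab x 0 y, ext2_update_b hab x 0 y',
        MultilinearMap.map_update_add])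
    (fun r x y => by
      rw [ext2_update_b hab x 0 (r • y), ext2_update_b hab x 0 y,
        MultilinearMap.map_update_smul])

theorem bil_apply (ψ : MultilinearMap K (fun _ : S => T) K) {a b : S} (hab : a ≠ b)
    (v : {z : S // z ≠ a ∧ z ≠ b} → T) (x y : T) : bil ψ hab v x y = ψ (ext2 a b x y v) := rfl

/-- contraction of two variables -/
noncomputable def cont [DecidableEq C] {J : Type} [Fintype J] [DecidableEq J] (t : J → T)
    (κ : J → C) (R : Matrix J J K) (i : C) (a b : S)
    (ψ : MultilinearMap K (fun _ : S => T) K) :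
    MultilinearMap K (fun _ : {z : S // z ≠ a ∧ z ≠ b} => T) K :=
  ∑ p ∈ blk κ i, ∑ q, R p q • fix2 ψ a b (t p) (t q)

theorem cont_apply [DecidableEq C] {J : Type} [Fintype J] [DecidableEq J] (t : J → T)
    (κ : J → C) (R : Matrix J J K) (i : C) (a b : S) (ψ : MultilinearMap K (fun _ : S => T) K)
    (v : {z : S // z ≠ a ∧ z ≠ b} → T) :
    cont t κ R i a b ψ v = ∑ p ∈ blk κ i, ∑ q, R p q * ψ (ext2 a b (t p) (t q) v) := by
  rw [cont, MultilinearMap.sum_apply]
  refine Finset.sum_congr rfl fun p _ => ?_
  rw [MultilinearMap.sum_apply]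
  rfl

theorem fn_cont [DecidableEq C] {J : Type} [Fintype J] [DecidableEq J] (t : J → T)
    (κ : J → C) (R : Matrix J J K) (i : C) (a b : S)
    (ψ : MultilinearMap K (fun _ : S => T) K) :
    fn t (cont t κ R i a b ψ) = conS κ R i a b (fn t ψ) := by
  funext r
  unfold fn conS
  rw [cont_apply]
  refine Finset.sum_congr rfl fun p _ => Finset.sum_congr rfl fun q _ => ?_
  rw [smul_eq_mul]
  congr 2
  funext z
  unfold ext2
  split_ifs <;> rfl

/-- The contraction is invariant under isometries which respect the blocks. -/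
theorem cont_isom [DecidableEq C] {J : Type} [Fintype J] [DecidableEq J] (t : Basis J K T)
    {κ : J → C} (ht : ∀ j, t j ∈ U (κ j))
    (hsp : ∀ c, ∀ x ∈ U c, x ∈ Submodule.span K (t '' {j | κ j = c}))
    {R : Matrix J J K} (hQR : (Matrix.of fun i j => B (t i) (t j)) * R = 1) {f : T →ₗ[K] T}
    (hf : ∀ x y, B (f x) (f y) = B x y) (hfU : ∀ c, ∀ x ∈ U c, f x ∈ U c) (i : C)
    (β : T →ₗ[K] T →ₗ[K] K) :
    ∑ p ∈ blk κ i, ∑ q, R p q * β (f (t p)) (f (t q)) =
      ∑ p ∈ blk κ i, ∑ q, R p q * β (t p) (t q) := by
  classical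
  set Q : Matrix J J K := Matrix.of fun i j => B (t i) (t j) with hQ
  let A : Matrix J J K := Matrix.of fun x p => t.repr (f (t p)) x
  have hA : ∀ p, f (t p) = ∑ x, A x p • t x := fun p => (t.sum_repr (f (t p))).symm
  have hA0 : ∀ x p, κ x ≠ κ p → A x p = 0 := by
    intro x p hxp
    have h1 := hsp _ _ (hfU _ _ (ht p))
    rw [Basis.mem_span_image] at h1
    by_contra h2
    exact hxp (h1 (Finsupp.mem_support_iff.2 h2))
  have hAQ : A.transpose * Q * A = Q := by
    ext p q
    have h1 := hf (t p) (t q)
    rw [hA p, hA q] at h1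
    simp only [map_sum, map_smul, LinearMap.sum_apply, LinearMap.smul_apply, smul_eq_mul] at h1
    rw [Matrix.mul_apply]
    change _ = B (t p) (t q)
    rw [← h1]
    refine Finset.sum_congr rfl fun y _ => ?_
    rw [Matrix.mul_apply, Finset.sum_mul, Finset.mul_sum]
    refine Finset.sum_congr rfl fun x _ => ?_
    rw [Matrix.transpose_apply]
    change A x p * B (t x) (t y) * A y q = _
    ring
  have hRQ : R * Q = 1 := mul_eq_one_comm.1 hQR
  have hARA : A * R * A.transpose = R := by
    have h1 : A.transpose * (Q * A * R) = 1 := by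
      rw [← Matrix.mul_assoc, ← Matrix.mul_assoc, hAQ, hQR]
    have h2 : (Q * A * R) * A.transpose = 1 := mul_eq_one_comm.1 h1
    have h3 : Q * (A * R * A.transpose) = 1 := by
      rw [← h2]
      simp only [Matrix.mul_assoc]
    calc A * R * A.transpose = (R * Q) * (A * R * A.transpose) := by rw [hRQ, Matrix.one_mul]
      _ = R := by rw [Matrix.mul_assoc, h3, Matrix.mul_one]
  have key : ∀ x y, ∑ p ∈ blk κ i, ∑ q, R p q * (A x p * A y q) =
      if κ x = i then R x y else 0 := by
    intro x y
    by_cases hx : κ x = i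
    · rw [if_pos hx]
      have h1 : R x y = (A * R * A.transpose) x y := by rw [hARA]
      rw [h1, Matrix.mul_apply]
      have h2 : ∀ q, (A * R) x q * A.transpose q y = ∑ p ∈ blk κ i, R p q * (A x p * A y q) := by
        intro q
        rw [Matrix.mul_apply, Finset.sum_mul, Matrix.transpose_apply]
        symm
        rw [← Finset.sum_subset (Finset.subset_univ (blk κ i))]
        · refine Finset.sum_congr rfl fun p _ => ?_
          ring
        · intro p _ hp
          rw [mem_blk] at hp
          rw [hA0 x p (by rw [hx]; exact Ne.symm hp)]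
          ring
      rw [Finset.sum_congr rfl fun q _ => h2 q, Finset.sum_comm]
    · rw [if_neg hx]
      refine Finset.sum_eq_zero fun p hp => Finset.sum_eq_zero fun q _ => ?_
      rw [mem_blk] at hp
      rw [hA0 x p (by rw [hp]; exact hx)]
      ring
  have hexp : ∀ p q, β (f (t p)) (f (t q)) = ∑ x, ∑ y, (A x p * A y q) * β (t x) (t y) := by
    intro p q
    rw [hA p, hA q]
    simp only [map_sum, map_smul, LinearMap.sum_apply, LinearMap.smul_apply, smul_eq_mul,
      Finset.mul_sum]
    rw [Finset.sum_comm]
    refine Finset.sum_congr rfl fun x _ => Finset.sum_congr rfl fun y _ => ?_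
    ring
  calc ∑ p ∈ blk κ i, ∑ q, R p q * β (f (t p)) (f (t q))
      = ∑ p ∈ blk κ i, ∑ q, ∑ x, ∑ y, R p q * (A x p * A y q) * β (t x) (t y) := by
        refine Finset.sum_congr rfl fun p _ => Finset.sum_congr rfl fun q _ => ?_
        rw [hexp, Finset.mul_sum]
        refine Finset.sum_congr rfl fun x _ => ?_
        rw [Finset.mul_sum]
        refine Finset.sum_congr rfl fun y _ => ?_
        ring
    _ = ∑ x, ∑ y, (∑ p ∈ blk κ i, ∑ q, R p q * (A x p * A y q)) * β (t x) (t y) := by
        simp only [Finset.sum_mul]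
        rw [Finset.sum_congr rfl fun p _ => Finset.sum_comm]
        rw [Finset.sum_comm]
        refine Finset.sum_congr rfl fun x _ => ?_
        rw [Finset.sum_congr rfl fun p _ => Finset.sum_comm]
        rw [Finset.sum_comm]
    _ = ∑ x, ∑ y, (if κ x = i then R x y else 0) * β (t x) (t y) := by
        simp only [key]
    _ = ∑ p ∈ blk κ i, ∑ q, R p q * β (t p) (t q) := by
        symm
        rw [blk, Finset.sum_filter]
        refine Finset.sum_congr rfl fun x _ => ?_
        split_ifs
        · rfl
        · rw [Finset.sum_eq_zero]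
          intro y _
          rw [zero_mul]

end Pool.Agent.Y130.MM
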