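import Pool.Agent.Y130.MM.Exact

/-!
# The exact semi-invariants: the converse
-/

set_option linter.unusedSectionVars false

open Module Finset Function

namespace Pool.Agent.Y130.MM

open Pool.Agent.Y130 Pool.Agent.Y130.MT Pool.Agent.TH125.Gal Pool.Agent.TH125.Nod

section prod

variable {K : Type} [Field K] {T : Type} [AddCommGroup T] [Module K T] {A : Type} [Fintype A]
  {m : A → ℕ} {W : A → Type} [∀ a, AddCommGroup (W a)] [∀ a, Module K (W a)]

/-- product of forms in separate variables -/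
def prodForm [DecidableEq A] (pr : ∀ a, T →ₗ[K] W a)
    (D : ∀ a, MultilinearMap K (fun _ : Fin (m a) => W a) K) :
    MultilinearMap K (fun _ : (Σ a, Fin (m a)) => T) K where
  toFun v := ∏ a, D a fun i => pr a (v ⟨a, i⟩)
  map_update_add' {inst} v x y z := by
    obtain ⟨a0, i0⟩ := x
    have h1 : ∀ t : T, ∏ a, D a (fun i => pr a (Function.update v ⟨a0, i0⟩ t ⟨a, i⟩)) =
        D a0 (Function.update (fun i => pr a0 (v ⟨a0, i⟩)) i0 (pr a0 t)) *
          ∏ a ∈ univ.erase a0, D a fun i => pr a (v ⟨a, i⟩) := by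
      intro t
      rw [← Finset.mul_prod_erase univ _ (Finset.mem_univ a0)]
      congr 1
      · congr 1
        funext i
        by_cases hi : i = i0
        · subst hi
          rw [Function.update_self, Function.update_self]
        · rw [Function.update_of_ne hi, Function.update_of_ne]
          intro h
          exact hi (eq_of_heq (Sigma.mk.inj h).2)
      · refine Finset.prod_congr rfl fun a ha => ?_
        congr 1
        funext i
        rw [Function.update_of_ne]
        intro h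
        exact (Finset.mem_erase.1 ha).1 (Sigma.mk.inj h).1
    rw [h1, h1, h1, map_add, MultilinearMap.map_update_add, add_mul]
  map_update_smul' {inst} v x c y := by
    obtain ⟨a0, i0⟩ := x
    have h1 : ∀ t : T, ∏ a, D a (fun i => pr a (Function.update v ⟨a0, i0⟩ t ⟨a, i⟩)) =
        D a0 (Function.update (fun i => pr a0 (v ⟨a0, i⟩)) i0 (pr a0 t)) *
          ∏ a ∈ univ.erase a0, D a fun i => pr a (v ⟨a, i⟩) := by
      intro t
      rw [← Finset.mul_prod_erase univ _ (Finset.mem_univ a0)]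
      congr 1
      · congr 1
        funext i
        by_cases hi : i = i0
        · subst hi
          rw [Function.update_self, Function.update_self]
        · rw [Function.update_of_ne hi, Function.update_of_ne]
          intro h
          exact hi (eq_of_heq (Sigma.mk.inj h).2)
      · refine Finset.prod_congr rfl fun a ha => ?_
        congr 1
        funext i
        rw [Function.update_of_ne]
        intro h
        exact (Finset.mem_erase.1 ha).1 (Sigma.mk.inj h).1
    rw [h1, h1, map_smul, MultilinearMap.map_update_smul, smul_eq_mul, smul_eq_mul, mul_assoc]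

end prod

variable {K : Type} [Field K] [CharZero K] [IsAlgClosed K] {T : Type} [AddCommGroup T]
  [Module K T] [FiniteDimensional K T] {V : Type}
  [AddCommGroup V] [Module K V] {E : Type} [AddCommGroup E] [Module K E]
  [FiniteDimensional K E] {Γ G : Type} [Group Γ] [Group G] {C : Type} {ι : Γ →* G}
  {q : G →* Kˣ} {w : ℕ} {τ : Representation K G T} {ρ : Representation K G V}
  {σ : Representation K G E} {B : T →ₗ[K] T →ₗ[K] K} {U : C → Submodule K T} {star : C → C}
  {G₀ : Subgroup G} {H : Γ → Subgroup Kˣ}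

/-- The converse. -/
theorem of_exact [Finite C] (h : IsolatedMotive ι q w τ B U star G₀ H) (hG₀ : G₀ = ⊤)
    {i : T →ₗ[K] V} {p : V →ₗ[K] T} (hp : ∀ g x, p (ρ g x) = τ g (p x)) (hip : ∀ x, p (i x) = x)
    {δ : C → G₀ →* Kˣ}
    (hδ : ∀ c (g : G₀), (δ c g : K) = LinearMap.det ((τ (g : G)).restrict (h.stable g g.2 c)))
    (A : Finset C) (j : ℤ)
    (hT : ∀ n, SameSemiinvariants ι (homRep n ρ σ) (q ^ j)) :
    ExactOn ι G₀ σ ((q.comp G₀.subtype) ^ j * ∏ c ∈ A, δ c) := by
  classical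
  subst hG₀
  intro x hx
  have hcompl : ∀ c, IsCompl (U c) (⨆ (d : C) (_ : d ≠ c), U d) := by
    intro c
    refine ⟨h.fam.indep c, codisjoint_iff.2 ?_⟩
    rw [eq_top_iff, ← h.fam.sup]
    refine iSup_le fun d => ?_
    by_cases hd : d = c
    · rw [hd]
      exact le_sup_left
    · exact le_trans (le_iSup₂_of_le d hd le_rfl) le_sup_right
  let pr : ∀ c : {c // c ∈ A}, T →ₗ[K] U c.1 := fun c =>
    Submodule.linearProjOfIsCompl _ _ (hcompl c.1)
  let b : ∀ c : {c // c ∈ A}, Basis (Fin (finrank K (U c.1))) K (U c.1) := fun c =>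
    Module.finBasis K (U c.1)
  let ψ := prodForm pr fun c => (b c).det.toMultilinearMap
  have hψ : ∀ v, ψ v = ∏ c : {c // c ∈ A}, (b c).det fun l => pr c (v ⟨c, l⟩) := fun v => rfl
  have hpr : ∀ (g : G) c y, pr c (τ g y) =
      (τ g).restrict (h.stable g (Subgroup.mem_top g) c.1) (pr c y) := by
    intro g c y
    have h1 : ∀ u ∈ U c.1, pr c (τ g u) =
        (τ g).restrict (h.stable g (Subgroup.mem_top g) c.1) (pr c u) := by
      intro u hu
      have h2 : pr c u = ⟨u, hu⟩ := Submodule.linearProjOfIsCompl_apply_left (hcompl c.1) ⟨u, hu⟩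
      have h3 : pr c (τ g u) = ⟨τ g u, h.stable g (Subgroup.mem_top g) c.1 u hu⟩ :=
        Submodule.linearProjOfIsCompl_apply_left (hcompl c.1)
          ⟨τ g u, h.stable g (Subgroup.mem_top g) c.1 u hu⟩
      rw [h2, h3]
      rfl
    have h2 : ∀ z ∈ ⨆ (d : C) (_ : d ≠ c.1), U d, pr c (τ g z) =
        (τ g).restrict (h.stable g (Subgroup.mem_top g) c.1) (pr c z) := by
      intro z hz
      have h3 : τ g z ∈ ⨆ (d : C) (_ : d ≠ c.1), U d := by
        have h4 : (⨆ (d : C) (_ : d ≠ c.1), U d) ≤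
            (⨆ (d : C) (_ : d ≠ c.1), U d).comap (τ g) := by
          refine iSup₂_le fun d hd y hy => ?_
          exact Submodule.mem_iSup_of_mem d (Submodule.mem_iSup_of_mem hd
            (h.stable g (Subgroup.mem_top g) d y hy))
        exact h4 hz
      have h5 : pr c z = 0 := (Submodule.linearProjOfIsCompl_apply_eq_zero_iff (hcompl c.1)).2 hz
      have h6 : pr c (τ g z) = 0 :=
        (Submodule.linearProjOfIsCompl_apply_eq_zero_iff (hcompl c.1)).2 h3
      rw [h5, h6, map_zero]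
    obtain ⟨u, hu, z, hz, rfl⟩ := Submodule.mem_sup.1
      (show y ∈ U c.1 ⊔ ⨆ (d : C) (_ : d ≠ c.1), U d by
        rw [(hcompl c.1).sup_eq_top]; exact Submodule.mem_top)
    rw [map_add, map_add, map_add, map_add, h1 u hu, h2 z hz]
  have hψg : ∀ (g : G) v, ψ (fun l => τ g (v l)) =
      (∏ c ∈ A, (δ c ⟨g, Subgroup.mem_top g⟩ : K)) * ψ v := by
    intro g v
    rw [hψ, hψ, ← Finset.prod_coe_sort A, ← Finset.prod_mul_distrib]
    refine Finset.prod_congr rfl fun c _ => ?_
    rw [hδ, ← Basis.det_comp]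
    congr 1
    funext l
    exact hpr g c _
  let e := Fintype.equivFin (Σ c : {c // c ∈ A}, Fin (finrank K (U c.1)))
  let φ : MultilinearMap K (fun _ : Fin (Fintype.card
      (Σ c : {c // c ∈ A}, Fin (finrank K (U c.1)))) => V) E :=
    ((ψ.domDomCongr e).compLinearMap fun _ => p).smulRight x
  have hφ : ∀ v, φ v = ψ (fun l => p (v (e l))) • x := fun v => rfl
  have hφg : ∀ (g : G) v, homRep _ ρ σ g φ v =
      ((∏ c ∈ A, (δ c ⟨g⁻¹, Subgroup.mem_top _⟩ : K)) * ψ (fun l => p (v (e l)))) • σ g x := by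
    intro g v
    change σ g (φ fun l => ρ g⁻¹ (v l)) = _
    rw [hφ, map_smul, ← hψg]
    congr 2
    funext l
    exact hp _ _
  have hδi : ∀ g : G, (∏ c ∈ A, (δ c ⟨g⁻¹, Subgroup.mem_top _⟩ : K)) *
      (∏ c ∈ A, (δ c ⟨g, Subgroup.mem_top _⟩ : K)) = 1 := by
    intro g
    rw [← Finset.prod_mul_distrib]
    refine Finset.prod_eq_one fun c _ => ?_
    rw [← Units.val_mul, ← map_mul]
    have : (⟨g⁻¹, Subgroup.mem_top _⟩ : (⊤ : Subgroup G)) * ⟨g, Subgroup.mem_top _⟩ = 1 :=
      Subtype.ext (inv_mul_cancel g)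
    rw [this, map_one, Units.val_one]
  have hχ : ∀ g : G, ((((q.comp (⊤ : Subgroup G).subtype) ^ j * ∏ c ∈ A, δ c :
      (⊤ : Subgroup G) →* Kˣ) ⟨g, Subgroup.mem_top _⟩ : Kˣ) : K) =
      ((q g ^ j : Kˣ) : K) * ∏ c ∈ A, (δ c ⟨g, Subgroup.mem_top _⟩ : K) := by
    intro g
    rw [MonoidHom.mul_apply, MonoidHom.finset_prod_apply, Units.val_mul, Units.coe_prod]
    rfl
  have h1 := hT _ φ fun s => by
    ext v
    rw [hφg, hx s (Subgroup.mem_top _), hχ, smul_smul]
    change _ = ((q (ι s) ^ j : Kˣ) : K) • φ v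
    rw [hφ, smul_smul]
    congr 1
    linear_combination ((q (ι s) ^ j : Kˣ) : K) * ψ (fun l => p (v (e l))) * hδi (ι s)
  rintro ⟨g, hg⟩
  have h2 := congrArg (fun F => F fun l => i ((b (e.symm l).1 (e.symm l).2 : U _) : T)) (h1 g)
  change homRep _ ρ σ g φ (fun l => i ((b (e.symm l).1 (e.symm l).2 : U _) : T)) =
    ((q g ^ j : Kˣ) : K) • φ (fun l => i ((b (e.symm l).1 (e.symm l).2 : U _) : T)) at h2
  rw [hφg, hφ] at h2
  have h3 : (fun l => p (i ((b (e.symm (e l)).1 (e.symm (e l)).2 : U _) : T))) =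
      fun l => ((b l.1 l.2 : U _) : T) := by
    funext l
    rw [hip, e.symm_apply_apply]
  have h4 : ψ (fun l => ((b l.1 l.2 : U _) : T)) = 1 := by
    rw [hψ]
    refine Finset.prod_eq_one fun c _ => ?_
    have h5 : (fun l => pr c ((b c l : U _) : T)) = b c := by
      funext l
      exact Submodule.linearProjOfIsCompl_apply_left (hcompl c.1) (b c l)
    change (b c).det (fun l => pr c ((b c l : U _) : T)) = 1
    rw [h5, Basis.det_self]
  have h3' := congrArg (fun F => ψ F) h3
  change ψ (fun l => p (i ((b (e.symm (e l)).1 (e.symm (e l)).2 : U _) : T))) = _ at h3'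
  rw [h3', h4, mul_one, one_smul] at h2
  rw [hχ]
  change σ g x = _
  have h5 := hδi g
  have h6 := congrArg (fun y => (∏ c ∈ A, (δ c ⟨g, Subgroup.mem_top _⟩ : K)) • y) h2
  change (∏ c ∈ A, (δ c ⟨g, Subgroup.mem_top _⟩ : K)) •
    ((∏ c ∈ A, (δ c ⟨g⁻¹, Subgroup.mem_top _⟩ : K)) • σ g x) =
    (∏ c ∈ A, (δ c ⟨g, Subgroup.mem_top _⟩ : K)) • (((q g ^ j : Kˣ) : K) • x) at h6
  rw [smul_smul, mul_comm, h5, one_smul, smul_smul] at h6
  rw [h6, mul_comm]

/-- From `G₀` to `G`. -/
theorem same_of_exactOn {F : Type} [AddCommGroup F] [Module K F] {θ : Representation K G F}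
    (hG : ∀ g, ∃ s, (ι s)⁻¹ * g ∈ G₀) {j : ℤ}
    (h : ExactOn ι G₀ θ ((q.comp G₀.subtype) ^ j)) : SameSemiinvariants ι θ (q ^ j) := by
  intro e he g
  obtain ⟨s, hs⟩ := hG g
  have h1 := h e (fun s _ => he s) ⟨_, hs⟩
  change θ ((ι s)⁻¹ * g) e = ((q ((ι s)⁻¹ * g) ^ j : Kˣ) : K) • e at h1
  have h2 : g = ι s * ((ι s)⁻¹ * g) := by group
  have h3 := he s
  change θ (ι s) e = ((q (ι s) ^ j : Kˣ) : K) • e at h3
  change θ g e = ((q g ^ j : Kˣ) : K) • e
  conv_lhs => rw [h2]
  rw [map_mul, Module.End.mul_apply, h1, map_smul, h3, smul_smul]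
  congr 1
  rw [mul_comm, ← Units.val_mul, ← mul_zpow, ← map_mul, ← h2]

end Pool.Agent.Y130.MM
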