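import Pool.Agent.Y130.MM.Pub

/-!
# The same semi-invariants: definitions
-/

set_option linter.unusedSectionVars false

open Module

namespace Pool.Agent.Y130.MM

variable {K : Type} [Field K] {E : Type} [AddCommGroup E] [Module K E] {Γ G : Type} [Group Γ]
  [Group G]

/-- The Galois group `Γ`, which maps to `G` by `ι`, and the group `G` have the same semi-invariants
of character `χ` in `E`: the vectors of `E` on which `Γ` acts through `χ` are vectors on which `G`
acts through `χ` (no passage to subgroups of finite index). -/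
def SameSemiinvariants (ι : Γ →* G) (σ : Representation K G E) (χ : G →* Kˣ) : Prop :=
  ∀ e : E, (∀ s, σ (ι s) e = (χ (ι s) : K) • e) → ∀ g, σ g e = (χ g : K) • e

/-- auxiliary form of the definition -/
def ExactOn (ι : Γ →* G) (G₀ : Subgroup G) (σ : Representation K G E) (χ : G₀ →* Kˣ) : Prop :=
  ∀ e : E, (∀ s (hs : ι s ∈ G₀), σ (ι s) e = (χ ⟨ι s, hs⟩ : K) • e) →
    ∀ g : G₀, σ g e = (χ g : K) • e

theorem exactOn_iff {ι : Γ →* G} {G₀ : Subgroup G} {σ : Representation K G E} {χ : G₀ →* Kˣ} :
    ExactOn ι G₀ σ χ ↔ SameSemiinvariants (ι.subgroupComap G₀) (σ.comp G₀.subtype) χ :=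
  ⟨fun h e he => h e fun s hs => he ⟨s, hs⟩, fun h e he => h e fun s => he s.1 s.2⟩

end Pool.Agent.Y130.MM
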