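import Pool.Agent.Y130.MM.Refl
import Pool.Agent.Y130.MM.PubX

/-!
# The exact semi-invariants
-/

set_option linter.unusedSectionVars false

open Module Finset Function

namespace Pool.Agent.Y130.MM

open Pool.Agent.Y130 Pool.Agent.Y130.MT Pool.Agent.TH125.Gal Pool.Agent.TH125.Nod

section coeff

variable {K : Type} [Field K] {S : Type} [Fintype S] {V : Type} [AddCommGroup V] [Module K V]
  {E : Type} [AddCommGroup E] [Module K E]

/-- The coefficients can be chosen semi-invariant, characters depending on the form. -/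
theorem invariant_coeff' {Γ : Type} [Group Γ] (ρ : Γ →* (V →ₗ[K] V)) (σ : Γ →* (E →ₗ[K] E))
    (Δ : Subgroup Γ) (P : Set (MultilinearMap K (fun _ : S => V) K))
    (ν : MultilinearMap K (fun _ : S => V) K → Γ → K)
    (hP : ∀ g ∈ P, ∀ s ∈ Δ, ∀ v : S → V, g (fun j => ρ s (v j)) = ν g s * g v)
    {h : MultilinearMap K (fun _ : S => V) E}
    (hh : h ∈ Submodule.span K {F : MultilinearMap K (fun _ : S => V) E |
      ∃ g ∈ P, ∃ w : E, F = g.smulRight w})
    (hinv : ∀ s ∈ Δ, ∀ v : S → V, h (fun j => ρ s (v j)) = σ s (h v)) :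
    h ∈ Submodule.span K {F : MultilinearMap K (fun _ : S => V) E |
      ∃ g ∈ P, ∃ w : E, (∀ s ∈ Δ, σ s w = ν g s • w) ∧ F = g.smulRight w} := by
  classical
  obtain ⟨b, w, hbP, hbi, hw⟩ := exists_indep_rep P hh
  have key : ∀ g : b, ∀ s ∈ Δ, σ s (w g) = ν g s • w g := by
    intro g s hs
    by_cases hg : g ∈ w.support
    · rw [← sub_eq_zero, ← Module.forall_dual_apply_eq_zero_iff K]
      intro f
      have h1 : ∑ g' ∈ w.support, f (σ s (w g') - ν g' s • w g') •
          (g' : MultilinearMap K (fun _ : S => V) K) = 0 := by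
        ext v
        have h2 := hinv s hs v
        rw [hw, hw, Finsupp.sum, Finsupp.sum, map_sum] at h2
        have h3 := congrArg f h2
        rw [map_sum, map_sum] at h3
        rw [MultilinearMap.sum_apply, MultilinearMap.zero_apply]
        have h4 : ∀ g' ∈ w.support, (f (σ s (w g') - ν g' s • w g') •
            (g' : MultilinearMap K (fun _ : S => V) K)) v =
            f (σ s ((g' : MultilinearMap K (fun _ : S => V) K) v • w g')) -
            f ((g' : MultilinearMap K (fun _ : S => V) K) (fun j => ρ s (v j)) • w g') := by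
          intro g' _
          rw [MultilinearMap.smul_apply, hP _ (hbP g'.2) s hs, map_smul, map_smul, map_smul,
            map_sub, map_smul]
          simp only [smul_eq_mul]
          ring
        rw [Finset.sum_congr rfl h4, Finset.sum_sub_distrib, h3, sub_self]
      exact linearIndependent_iff'.1 hbi w.support _ h1 g hg
    · rw [Finsupp.notMem_support_iff.1 hg, map_zero, smul_zero]
  have h1 : h = ∑ g ∈ w.support, (g : MultilinearMap K (fun _ : S => V) K).smulRight (w g) := by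
    ext v
    rw [hw v, MultilinearMap.sum_apply]
    rfl
  rw [h1]
  exact Submodule.sum_mem _ fun g _ => Submodule.subset_span ⟨g, hbP g.2, w g, key g, rfl⟩

end coeff

variable {K : Type} [Field K] [CharZero K] [IsAlgClosed K] {T : Type} [AddCommGroup T]
  [Module K T] [FiniteDimensional K T] {V : Type}
  [AddCommGroup V] [Module K V] {E : Type} [AddCommGroup E] [Module K E]
  [FiniteDimensional K E] {Γ G : Type} [Group Γ] [Group G] {C : Type} {ι : Γ →* G}
  {q : G →* Kˣ} {w : ℕ} {τ : Representation K G T} {ρ : Representation K G V}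
  {σ : Representation K G E} {B : T →ₗ[K] T →ₗ[K] K} {U : C → Submodule K T} {star : C → C}
  {G₀ : Subgroup G} {H : Γ → Subgroup Kˣ}

/-- The coefficients of a Tate class are killed by the Lie algebras of the blocks. -/
theorem linv_T [Finite C] (h : IsolatedMotive ι q w τ B U star G₀ H)
    (hE : EigenvaluesIn ι H σ) {n : ℕ} {j : ℤ} {φ : MultilinearMap K (fun _ : Fin n => T) E}
    {Δ₁ : Subgroup Γ} (hΔ₁ : Δ₁.FiniteIndex)
    (hφ : ∀ s ∈ Δ₁, homRep n τ σ (ι s) φ = ((q (ι s) ^ j : Kˣ) : K) • φ) (f : E →ₗ[K] K) :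
    LInv B ((((-1 : ℤ) ^ w : ℤ)) : K) U star (f.compMultilinearMap φ) := by
  classical
  let σ' : Γ →* (E →ₗ[K] E) :=
    { toFun := fun s => ((q (ι s) ^ (-j) : Kˣ) : K) • σ (ι s)
      map_one' := by
        rw [map_one, map_one, map_one, one_zpow, Units.val_one, one_smul]
      map_mul' := fun s t => by
        rw [map_mul, map_mul, map_mul, mul_zpow, Units.val_mul]
        apply LinearMap.ext
        intro x
        simp only [LinearMap.smul_apply, Module.End.mul_apply, map_smul, smul_smul]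
        rw [mul_comm] }
  let μ : Γ →* K :=
    { toFun := fun s => (q (ι s) : K) ^ w
      map_one' := by rw [map_one, map_one, Units.val_one, one_pow]
      map_mul' := fun s t => by rw [map_mul, map_mul, Units.val_mul, mul_pow] }
  have hσ' : ∀ s x, σ' s x = ((q (ι s) ^ (-j) : Kˣ) : K) • σ (ι s) x := fun s x => rfl
  have hcan : ∀ s, ((q (ι s) ^ (-j) : Kˣ) : K) * ((q (ι s) ^ j : Kˣ) : K) = 1 := by
    intro s
    rw [← Units.val_mul, ← zpow_add, neg_add_cancel, zpow_zero, Units.val_one]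
  have hEqv : Eqv (τ.comp ι) σ' φ := by
    refine ⟨Δ₁, hΔ₁, fun s hs v => ?_⟩
    have h1 := congrArg (fun F => F fun l => τ (ι s) (v l)) (hφ s hs)
    change σ (ι s) (φ fun l => τ (ι s)⁻¹ (τ (ι s) (v l))) =
      ((q (ι s) ^ j : Kˣ) : K) • φ (fun l => τ (ι s) (v l)) at h1
    have h2 : (fun l => τ (ι s)⁻¹ (τ (ι s) (v l))) = v := by
      funext l
      rw [← Module.End.mul_apply, ← map_mul, inv_mul_cancel, map_one, Module.End.one_apply]
    rw [h2] at h1
    rw [hσ', h1, smul_smul, hcan, one_smul]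
    rfl
  have hH : ContainsEigenvalues H μ σ' := by
    intro F
    refine ⟨⟨q (ι F) ^ w, Subgroup.pow_mem _ (h.tate F) w, Units.val_pow_eq_pow_val _ _⟩, ?_⟩
    rintro β ⟨x, hx0, hx⟩
    have h1 : σ (ι F) x = (((q (ι F) ^ j : Kˣ) : K) * β) • x := by
      rw [mul_smul, ← hx, hσ', smul_smul, mul_comm, hcan, one_smul]
    obtain ⟨u, hu, hu'⟩ := hE F _ ⟨x, hx0, h1⟩
    refine ⟨q (ι F) ^ (-j) * u, Subgroup.mul_mem _ (Subgroup.zpow_mem _ (h.tate F) _) hu, ?_⟩
    rw [Units.val_mul, hu', ← mul_assoc, hcan, one_mul]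
  have hs : ((((-1 : ℤ) ^ w : ℤ)) : K) = 1 ∨ ((((-1 : ℤ) ^ w : ℤ)) : K) = -1 := by
    rcases sign_or w with h1 | h1 <;> rw [h1] <;> simp
  have hall : ∀ c, ∀ x ∈ U (star c), ∀ y ∈ U c,
      pp B ((((-1 : ℤ) ^ w : ℤ)) : K) x y ∈ LL (Fin n) B (τ.comp ι) σ' := by
    intro c x hx y hy
    refine alg_main (S := Fin n) (μ := μ) hs (fun x y => by rw [signs]; exact h.symm x y)
      (fun g x y => h.equiv (ι g) x y) h.dat (fun c => ?_) (fun c hc => ?_) c hx hy
    · rcases h.isolated c with h1 | ⟨F, a, v, hv, h1⟩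
      · exact Or.inl h1
      · exact Or.inr ⟨F, a, v, hv, IsolatedEigenvector.isoF (τ := τ.comp ι) (χ := μ) hH h1⟩
    · obtain ⟨F, hF⟩ := h.det c hc
      exact ⟨F, MT.cenF (τ := τ.comp ι) (χ := μ) hH hF⟩
  intro c x hx y hy v
  have h1 := (hall c x hx y hy).2 φ hEqv v
  have h2 := congrArg f h1
  rw [map_sum, map_zero] at h2
  exact h2

/-- The forms on which `G₀` acts through a power of `q` and a product of determinants of orthogonal
blocks. -/
def signForms (h : IsolatedMotive ι q w τ B U star G₀ H) (δ : C → G₀ →* Kˣ) (n : ℕ) :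
    Set (MultilinearMap K (fun _ : Fin n => T) K) :=
  {ψ | ∃ (A : Finset C) (m : ℤ), (∀ c ∈ A, star c = c ∧ Even w) ∧
    ∀ (g : G₀) (v : Fin n → T), ψ (fun j => τ g (v j)) =
      (((q g) ^ m * (∏ c ∈ A, δ c g) : Kˣ) : K) * ψ v}

theorem linv_span [Finite C] (h : IsolatedMotive ι q w τ B U star G₀ H) {δ : C → G₀ →* Kˣ}
    (hδ : ∀ c (g : G₀), (δ c g : K) = LinearMap.det ((τ (g : G)).restrict (h.stable g g.2 c)))
    {n : ℕ} {ψ : MultilinearMap K (fun _ : Fin n => T) K}
    (hψ : LInv B (((-1 : ℤ) ^ w : ℤ) : K) U star ψ) :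
    ψ ∈ Submodule.span K (signForms h δ n) := by
  classical
  have := Fintype.ofFinite C
  rcases Nat.even_or_odd w with hw | hw
  · -- even weight
    have hs1 : (((-1 : ℤ) ^ w : ℤ) : K) = 1 := by rw [hw.neg_one_pow, Int.cast_one]
    rw [hs1] at hψ
    have hsy : ∀ x y, B x y = B y x := fun x y => by
      have h1 := h.symm x y
      rwa [hw.neg_one_pow, one_mul] at h1
    obtain ⟨r, hr2, hrc, hrB, hU, hdd⟩ := exists_refl h.fam hsy h.ne
    let P : Submodule K (MultilinearMap K (fun _ : Fin n => T) K) :=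
      { carrier := {ψ | LInv B 1 U star ψ}
        zero_mem' := by
          intro c x hx y hy v
          simp
        add_mem' := by
          intro a b ha hb c x hx y hy v
          have h1 := ha c x hx y hy v
          have h2 := hb c x hx y hy v
          simp only [MultilinearMap.add_apply, Finset.sum_add_distrib, h1, h2, add_zero]
        smul_mem' := by
          intro r a ha c x hx y hy v
          have h1 := ha c x hx y hy v
          simp only [MultilinearMap.smul_apply, ← Finset.smul_sum, h1, smul_zero] }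
    have hP : ∀ c, ∀ ψ ∈ P, pre (r c) ψ ∈ P := fun c ψ hψ => LInv.pre (hrB c) (hU c) hψ
    have h1 := mem_span_sign hr2 hrc P hP (Finset.univ.filter fun c => star c = c) ψ hψ
    refine Submodule.span_mono ?_ h1
    rintro φ ⟨hφ, A, hAO, hA1, hA2⟩
    have hAs : ∀ c ∈ A, star c = c := fun c hc => (Finset.mem_filter.1 (hAO hc)).2
    refine ⟨A, ((w / 2 : ℕ) : ℤ) * ((n : ℤ) - ∑ c ∈ A, (finrank K (U c) : ℤ)),
      fun c hc => ⟨hAs c hc, hw⟩, fun g v => ?_⟩
    have hu0 : (q (g : G) : K) ^ (w / 2) ≠ 0 := pow_ne_zero _ (Units.ne_zero _)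
    have hww : w = 2 * (w / 2) := by
      obtain ⟨k, hk⟩ := hw
      omega
    have hfU : ∀ c, ∀ x ∈ U c, (((q (g : G) : K) ^ (w / 2))⁻¹ • τ (g : G)) x ∈ U c :=
      fun c x hx => by
        rw [LinearMap.smul_apply]
        exact Submodule.smul_mem _ _ (h.stable g g.2 c x hx)
    have h2 := act_sign h.fam hsy hrB hU (fun c hc => (hdd c c hc).1 rfl)
      (fun c d hc hdc => (hdd c d hc).2 hdc) φ hφ A hAs hA1
      (fun c hc hcA => hA2 c (Finset.mem_filter.2 ⟨Finset.mem_univ c, hc⟩) hcA) _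
      (((q (g : G) : K) ^ (w / 2))⁻¹ • τ (g : G)) (fun x y => by
        rw [LinearMap.smul_apply, LinearMap.smul_apply, map_smul, map_smul, LinearMap.smul_apply,
          h.equiv, smul_eq_mul, smul_eq_mul]
        conv_lhs => rw [hww]
        rw [pow_mul', sq, Nat.mul_div_cancel_left _ two_pos]
        field_simp) hfU rfl
    have h3 := congrArg (fun F => F v) h2
    change φ (fun j => ((q (g : G) : K) ^ (w / 2))⁻¹ • τ (g : G) (v j)) =
      (∏ c ∈ A, LinearMap.det ((((q (g : G) : K) ^ (w / 2))⁻¹ • τ (g : G)).restrict (hfU c))) *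
        φ v at h3
    have h4 : ∀ c ∈ A,
        LinearMap.det ((((q (g : G) : K) ^ (w / 2))⁻¹ • τ (g : G)).restrict (hfU c)) =
        (((q (g : G) : K) ^ (w / 2))⁻¹) ^ finrank K (U c) * (δ c g : K) := by
      intro c _
      rw [hδ, ← LinearMap.det_smul]
      rfl
    rw [MultilinearMap.map_smul_univ φ (fun _ => ((q (g : G) : K) ^ (w / 2))⁻¹)
      (fun j => τ (g : G) (v j)), Finset.prod_const, Finset.card_univ, Fintype.card_fin,
      smul_eq_mul, Finset.prod_congr rfl h4, Finset.prod_mul_distrib,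
      Finset.prod_pow_eq_pow_sum] at h3
    have h5 : (((q (g : G)) ^ (((w / 2 : ℕ) : ℤ) * ((n : ℤ) - ∑ c ∈ A, (finrank K (U c) : ℤ))) :
        Kˣ) : K) = ((q (g : G) : K) ^ (w / 2)) ^ n *
          (((q (g : G) : K) ^ (w / 2))⁻¹) ^ (∑ c ∈ A, finrank K (U c)) := by
      rw [Units.val_zpow_eq_zpow_val, zpow_mul, zpow_natCast, zpow_sub₀ hu0, zpow_natCast,
        div_eq_mul_inv, inv_pow]
      congr 2
      rw [← Nat.cast_sum, zpow_natCast]
    rw [Units.val_mul, h5, Units.coe_prod]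
    have h6 : (((q (g : G) : K) ^ (w / 2))⁻¹) ^ n * ((q (g : G) : K) ^ (w / 2)) ^ n = 1 := by
      rw [← mul_pow, inv_mul_cancel₀ hu0, one_pow]
    linear_combination ((q (g : G) : K) ^ (w / 2)) ^ n * h3 -
      φ (fun j => τ (g : G) (v j)) * h6
  · -- odd weight
    refine Submodule.subset_span ⟨∅, ((w * n / 2 : ℕ) : ℤ), fun c hc =>
      absurd hc (Finset.notMem_empty c), fun g v => ?_⟩
    rw [Finset.prod_empty, mul_one, zpow_natCast, Units.val_pow_eq_pow_val]
    exact key h (h.stable g g.2) (fun c _ hw' => absurd hw' (Nat.not_even_iff_odd.2 hw)) ψ hψ v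

/-- The case of the motive itself. -/
theorem exact_T [Finite C] (h : IsolatedMotive ι q w τ B U star G₀ H)
    (hE : EigenvaluesIn ι H σ) {δ : C → G₀ →* Kˣ}
    (hδ : ∀ c (g : G₀), (δ c g : K) = LinearMap.det ((τ (g : G)).restrict (h.stable g g.2 c)))
    (hT : ∀ (A : Finset C), (∀ c ∈ A, star c = c ∧ Even w) → ∀ j : ℤ,
      ExactOn ι G₀ σ ((q.comp G₀.subtype) ^ j * ∏ c ∈ A, δ c)) (n : ℕ) (j : ℤ) :
    ExactOn ι G₀ (homRep n τ σ) ((q.comp G₀.subtype) ^ j) := by
  classical
  intro φ hφ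
  have hφ' : ∀ s ∈ G₀.comap ι, homRep n τ σ (ι s) φ = ((q (ι s) ^ j : Kˣ) : K) • φ := by
    intro s hs
    exact hφ s hs
  have hfin := comap_fin (ι := ι) h.index
  have hL := fun f : E →ₗ[K] K => linv_T h hE hfin hφ' f
  let σ' : Γ →* (E →ₗ[K] E) :=
    { toFun := fun s => ((q (ι s) ^ (-j) : Kˣ) : K) • σ (ι s)
      map_one' := by
        rw [map_one, map_one, map_one, one_zpow, Units.val_one, one_smul]
      map_mul' := fun s t => by
        rw [map_mul, map_mul, map_mul, mul_zpow, Units.val_mul]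
        apply LinearMap.ext
        intro x
        simp only [LinearMap.smul_apply, Module.End.mul_apply, map_smul, smul_smul]
        rw [mul_comm] }
  have hσ' : ∀ s x, σ' s x = ((q (ι s) ^ (-j) : Kˣ) : K) • σ (ι s) x := fun s x => rfl
  have hcan : ∀ s, ((q (ι s) ^ (-j) : Kˣ) : K) * ((q (ι s) ^ j : Kˣ) : K) = 1 := by
    intro s
    rw [← Units.val_mul, ← zpow_add, neg_add_cancel, zpow_zero, Units.val_one]
  let b := Module.finBasis K E
  have hmem : φ ∈ Submodule.span K {F : MultilinearMap K (fun _ : Fin n => T) E |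
      ∃ g ∈ signForms h δ n, ∃ e : E, F = g.smulRight e} := by
    have h1 : φ = ∑ k, ((b.coord k).compMultilinearMap φ).smulRight (b k) := by
      ext v
      rw [MultilinearMap.sum_apply]
      exact (b.sum_repr (φ v)).symm
    rw [h1]
    refine Submodule.sum_mem _ fun k _ => ?_
    have h2 := linv_span h hδ (hL (b.coord k))
    generalize ((b.coord k).compMultilinearMap φ) = ψ at h2
    induction h2 using Submodule.span_induction with
    | mem x hx => exact Submodule.subset_span ⟨x, hx, b k, rfl⟩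
    | zero =>
      have : (0 : MultilinearMap K (fun _ : Fin n => T) K).smulRight (b k) = 0 := by
        ext v
        simp
      rw [this]
      exact Submodule.zero_mem _
    | add x y _ _ hx hy =>
      have : (x + y).smulRight (b k) = x.smulRight (b k) + y.smulRight (b k) := by
        ext v
        simp [add_smul]
      rw [this]
      exact Submodule.add_mem _ hx hy
    | smul r x _ hx =>
      have : (r • x).smulRight (b k) = r • x.smulRight (b k) := by
        ext v
        simp [smul_smul]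
      rw [this]
      exact Submodule.smul_mem _ _ hx
  -- characters
  have hch : ∀ ψ : MultilinearMap K (fun _ : Fin n => T) K, ∃ (A : Finset C) (m : ℤ),
      (∀ c ∈ A, star c = c ∧ Even w) ∧ (ψ ∈ signForms h δ n →
      ∀ (g : G₀) (v : Fin n → T), ψ (fun j => τ g (v j)) =
      (((q g) ^ m * (∏ c ∈ A, δ c g) : Kˣ) : K) * ψ v) := by
    intro ψ
    by_cases hψ : ψ ∈ signForms h δ n
    · obtain ⟨A, m, h1, h2⟩ := hψ
      exact ⟨A, m, h1, fun _ => h2⟩
    · exact ⟨∅, 0, fun c hc => absurd hc (Finset.notMem_empty c), fun h => absurd h hψ⟩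
  choose A m hA hAm using hch
  let ν : MultilinearMap K (fun _ : Fin n => T) K → Γ → K := fun ψ s =>
    if hs : ι s ∈ G₀ then (((q (ι s)) ^ m ψ * (∏ c ∈ A ψ, δ c ⟨ι s, hs⟩) : Kˣ) : K) else 0
  have hν : ∀ ψ s (hs : ι s ∈ G₀), ν ψ s =
      (((q (ι s)) ^ m ψ * (∏ c ∈ A ψ, δ c ⟨ι s, hs⟩) : Kˣ) : K) := fun ψ s hs => dif_pos hs
  have h3 := invariant_coeff' (τ.comp ι) σ' (G₀.comap ι) (signForms h δ n) ν
    (fun ψ hψ s hs v => by
      rw [hν ψ s hs]
      exact hAm ψ hψ ⟨ι s, hs⟩ v) hmem (fun s hs v => by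
      have h1 := congrArg (fun F => F fun l => τ (ι s) (v l)) (hφ' s hs)
      change σ (ι s) (φ fun l => τ (ι s)⁻¹ (τ (ι s) (v l))) =
        ((q (ι s) ^ j : Kˣ) : K) • φ (fun l => τ (ι s) (v l)) at h1
      have h2 : (fun l => τ (ι s)⁻¹ (τ (ι s) (v l))) = v := by
        funext l
        rw [← Module.End.mul_apply, ← map_mul, inv_mul_cancel, map_one, Module.End.one_apply]
      rw [h2] at h1
      rw [hσ', h1, smul_smul, hcan, one_smul]
      rfl)
  let Q : Submodule K (MultilinearMap K (fun _ : Fin n => T) E) :=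
    { carrier := {F | ∀ g : G₀, homRep n τ σ g F = ((q (g : G) ^ j : Kˣ) : K) • F}
      zero_mem' := fun g => by rw [map_zero, smul_zero]
      add_mem' := fun {x y} hx hy g => by rw [map_add, hx g, hy g, smul_add]
      smul_mem' := fun r x hx g => by rw [map_smul, hx g, smul_comm] }
  have h4 : φ ∈ Q := by
    refine Submodule.span_le.2 ?_ h3
    rintro _ ⟨ψ, hψ, e, he, rfl⟩
    have he' := hT (A ψ) (hA ψ) (j + m ψ) e (fun s hs => by
      have h5 := he s hs
      rw [hσ', hν ψ s hs] at h5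
      have h6 := congrArg (fun x => ((q (ι s) ^ j : Kˣ) : K) • x) h5
      change ((q (ι s) ^ j : Kˣ) : K) • (((q (ι s) ^ (-j) : Kˣ) : K) • σ (ι s) e) =
        ((q (ι s) ^ j : Kˣ) : K) •
          ((((q (ι s)) ^ m ψ * (∏ c ∈ A ψ, δ c ⟨ι s, hs⟩) : Kˣ) : K) • e) at h6
      rw [smul_smul, mul_comm, hcan, one_smul, smul_smul, ← Units.val_mul, ← mul_assoc,
        ← zpow_add] at h6
      rw [h6]
      congr 2
      rw [MonoidHom.mul_apply, MonoidHom.finset_prod_apply]
      rfl)
    intro g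
    have he2 := he' g⁻¹⁻¹
    ext v
    change σ (g : G) (ψ (fun l => τ (g : G)⁻¹ (v l)) • e) =
      ((q (g : G) ^ j : Kˣ) : K) • (ψ v • e)
    have h7 : ψ (fun l => τ (g : G)⁻¹ (v l)) =
        (((q ((g⁻¹ : G₀) : G)) ^ m ψ * (∏ c ∈ A ψ, δ c g⁻¹) : Kˣ) : K) * ψ v := hAm ψ hψ g⁻¹ v
    have h8 : σ (g : G) e = ((q (g : G) ^ (j + m ψ) * ∏ c ∈ A ψ, δ c g : Kˣ) : K) • e := by
      have h9 := he' g
      rw [MonoidHom.mul_apply, MonoidHom.finset_prod_apply] at h9
      exact h9
    rw [h7, map_smul, h8, smul_smul, smul_smul]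
    congr 1
    have h10 : (q ((g⁻¹ : G₀) : G)) ^ m ψ * (∏ c ∈ A ψ, δ c g⁻¹) *
        (q (g : G) ^ (j + m ψ) * ∏ c ∈ A ψ, δ c g) = q (g : G) ^ j := by
      have h11 : (∏ c ∈ A ψ, δ c g⁻¹) * (∏ c ∈ A ψ, δ c g) = 1 := by
        rw [← Finset.prod_mul_distrib]
        refine Finset.prod_eq_one fun c _ => ?_
        rw [← map_mul, inv_mul_cancel, map_one]
      have h12 : q ((g⁻¹ : G₀) : G) = (q (g : G))⁻¹ := by
        rw [Subgroup.coe_inv, map_inv]
      calc (q ((g⁻¹ : G₀) : G)) ^ m ψ * (∏ c ∈ A ψ, δ c g⁻¹) *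
          (q (g : G) ^ (j + m ψ) * ∏ c ∈ A ψ, δ c g)
          = ((q ((g⁻¹ : G₀) : G)) ^ m ψ * q (g : G) ^ (j + m ψ)) *
            ((∏ c ∈ A ψ, δ c g⁻¹) * (∏ c ∈ A ψ, δ c g)) := by
            rw [mul_mul_mul_comm]
        _ = q (g : G) ^ j := by
            rw [h11, mul_one, h12, inv_zpow', ← zpow_add]
            congr 1
            ring
    have h13 := congrArg Units.val h10
    rw [Units.val_mul] at h13
    linear_combination ψ v * h13
  intro g
  have h5 := h4 g
  rw [h5]
  rfl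

/-- The case of a direct summand of a sum of copies. -/
theorem exact_V [Finite C] (hdom : SummandOfCopies τ ρ)
    (h : IsolatedMotive ι q w τ B U star G₀ H)
    (hE : EigenvaluesIn ι H σ) {δ : C → G₀ →* Kˣ}
    (hδ : ∀ c (g : G₀), (δ c g : K) = LinearMap.det ((τ (g : G)).restrict (h.stable g g.2 c)))
    (hT : ∀ (A : Finset C), (∀ c ∈ A, star c = c ∧ Even w) → ∀ j : ℤ,
      ExactOn ι G₀ σ ((q.comp G₀.subtype) ^ j * ∏ c ∈ A, δ c)) (n : ℕ) (j : ℤ) :
    ExactOn ι G₀ (homRep n ρ σ) ((q.comp G₀.subtype) ^ j) := by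
  classical
  intro φ hφ
  obtain ⟨r, i, p, hi, hp, hip⟩ := hdom
  let pb : (Fin n → Fin r) → (MultilinearMap K (fun _ : Fin n => T) E →ₗ[K]
      MultilinearMap K (fun _ : Fin n => V) E) := fun k =>
    { toFun := fun f => f.compLinearMap fun s => p (k s)
      map_add' := fun _ _ => rfl
      map_smul' := fun _ _ => rfl }
  let qq : (Fin n → Fin r) → MultilinearMap K (fun _ : Fin n => T) E := fun k =>
    φ.compLinearMap fun s => i (k s)
  have hsum : φ = ∑ k : Fin n → Fin r, pb k (qq k) := by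
    ext v
    rw [MultilinearMap.sum_apply]
    have h1 : φ v = φ (fun s => ∑ k, i k (p k (v s))) := by
      congr 1
      funext s
      rw [hip]
    rw [h1, MultilinearMap.map_sum]
    rfl
  have hq : ∀ k, ∀ g : G₀, homRep n τ σ g (qq k) =
      (((q.comp G₀.subtype) ^ j : G₀ →* Kˣ) g : K) • qq k := by
    intro k
    refine exact_T h hE hδ hT n j (qq k) fun s hs => ?_
    ext v
    change σ (ι s) (φ fun l => i (k l) (τ (ι s)⁻¹ (v l))) =
      (((q.comp G₀.subtype) ^ j : G₀ →* Kˣ) ⟨ι s, hs⟩ : K) • φ fun l => i (k l) (v l)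
    have h1 := congrArg (fun F => F fun l => i (k l) (v l)) (hφ s hs)
    change σ (ι s) (φ fun l => ρ (ι s)⁻¹ (i (k l) (v l))) =
      (((q.comp G₀.subtype) ^ j : G₀ →* Kˣ) ⟨ι s, hs⟩ : K) •
        φ (fun l => i (k l) (v l)) at h1
    rw [← h1]
    congr 2
    funext l
    rw [hi]
  intro g
  have h3 : ∀ k, homRep n ρ σ g (pb k (qq k)) =
      (((q.comp G₀.subtype) ^ j : G₀ →* Kˣ) g : K) • pb k (qq k) := by
    intro k
    ext v
    change σ (g : G) (qq k fun l => p (k l) (ρ (g : G)⁻¹ (v l))) =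
      (((q.comp G₀.subtype) ^ j : G₀ →* Kˣ) g : K) • qq k fun l => p (k l) (v l)
    have h2 := congrArg (fun F => F fun l => p (k l) (v l)) (hq k g)
    change σ (g : G) (qq k fun l => τ (g : G)⁻¹ (p (k l) (v l))) =
      (((q.comp G₀.subtype) ^ j : G₀ →* Kˣ) g : K) •
        qq k (fun l => p (k l) (v l)) at h2
    rw [← h2]
    congr 2
    funext l
    rw [hp]
  rw [hsum, map_sum, Finset.smul_sum]
  exact Finset.sum_congr rfl fun k _ => h3 k

end Pool.Agent.Y130.MM
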