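import Pool.Agent.Y130.MM.Mil
import Pool.Agent.Y130.Cen

/-!
# Isometries of determinant one act trivially (II)
-/

set_option linter.unusedSectionVars false

open Module Finset Function

namespace Pool.Agent.Y130.MM

open Pool.Agent.Y130 Pool.Agent.TH125.Gal Pool.Agent.TH125.Nod

variable {K : Type} [Field K] [CharZero K] {T : Type} [AddCommGroup T] [Module K T]
  {C : Type} [DecidableEq C] {B : T →ₗ[K] T →ₗ[K] K} {s : ℤ}
  {U : C → Submodule K T} {star : C → C}

theorem hsp_of (hfam : Fam B U star) {J : Type} [Fintype J] [DecidableEq J] {t : Basis J K T}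
    {κ : J → C} (ht : ∀ j, t j ∈ U (κ j)) (c : C) (x : T) (hx : x ∈ U c) :
    x ∈ Submodule.span K (t '' {j | κ j = c}) := by
  have h6 : x = ∑ j, t.repr x j • t j := (t.sum_repr x).symm
  rw [← Finset.sum_filter_add_sum_filter_not univ (fun j => κ j = c)] at h6
  have h8 : ∑ j with ¬ κ j = c, t.repr x j • t j = 0 := by
    have h9 : x - ∑ j with κ j = c, t.repr x j • t j =
        ∑ j with ¬ κ j = c, t.repr x j • t j := by
      rw [sub_eq_iff_eq_add']
      exact h6
    have h10 : x - ∑ j with κ j = c, t.repr x j • t j ∈ U c :=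
      Submodule.sub_mem _ hx (Submodule.sum_mem _ fun j hj =>
        Submodule.smul_mem _ _ ((Finset.mem_filter.1 hj).2 ▸ ht j))
    have h11 : ∑ j with ¬ κ j = c, t.repr x j • t j ∈ ⨆ (e : C) (_ : e ≠ c), U e :=
      Submodule.sum_mem _ fun j hj => Submodule.smul_mem _ _
        (Submodule.mem_iSup_of_mem (κ j) (Submodule.mem_iSup_of_mem
          (Finset.mem_filter.1 hj).2 (ht j)))
    rw [h9] at h10
    exact Submodule.disjoint_def.1 (hfam.indep c) _ h10 h11
  rw [h8, add_zero] at h6
  rw [h6]
  exact Submodule.sum_mem _ fun j hj => Submodule.smul_mem _ _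
    (Submodule.subset_span ⟨j, (Finset.mem_filter.1 hj).2, rfl⟩)

/-- the operator which is `f` on the blocks of `I` and the identity on the other ones -/
noncomputable def part {J : Type} (t : Basis J K T) (κ : J → C) (f : T →ₗ[K] T)
    (I : Finset C) : T →ₗ[K] T :=
  t.constr K fun j => if κ j ∈ I then f (t j) else t j

theorem part_mem {J : Type} {t : Basis J K T} {κ : J → C}
    (hsp : ∀ c, ∀ x ∈ U c, x ∈ Submodule.span K (t '' {j | κ j = c})) (f : T →ₗ[K] T)
    (I : Finset C) {c : C} {x : T} (hx : x ∈ U c) :
    part t κ f I x = if c ∈ I then f x else x := by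
  have h := hsp c x hx
  clear hx
  induction h using Submodule.span_induction with
  | mem x hx =>
    obtain ⟨j, hj, rfl⟩ := hx
    have hj' : κ j = c := hj
    rw [part, Basis.constr_basis, hj']
  | zero => rw [map_zero, map_zero, ite_self]
  | add x y _ _ hx hy =>
    rw [map_add, hx, hy]
    split_ifs
    · rw [map_add]
    · rfl
  | smul r x _ hx =>
    rw [map_smul, hx]
    split_ifs
    · rw [map_smul]
    · rfl

theorem pre_comp {S : Type} (f g : T →ₗ[K] T) (ψ : MultilinearMap K (fun _ : S => T) K) :
    pre (g ∘ₗ f) ψ = pre f (pre g ψ) := rfl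

/-- **Isometries which respect the blocks, with determinant one on the orthogonal blocks, act
trivially on the forms killed by the Lie algebras of the blocks.** -/
theorem mil [Finite C] [Module.Finite K T] (hs : s = 1 ∨ s = -1)
    (hsy : ∀ x y, B x y = ((s : ℤ) : K) * B y x) (hfam : Fam B U star) {f : T →ₗ[K] T}
    (hf : ∀ x y, B (f x) (f y) = B x y) (hfU : ∀ c, ∀ x ∈ U c, f x ∈ U c)
    (hdet : ∀ c, s = 1 → star c = c → LinearMap.det (f.restrict (hfU c)) = 1)
    {S : Type} [Fintype S] [DecidableEq S] (ψ : MultilinearMap K (fun _ : S => T) K)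
    (hψ : LInv B ((s : ℤ) : K) U star ψ) : pre f ψ = ψ := by
  classical
  have := Fintype.ofFinite C
  have hstar := hfam.star_star
  have horth := hfam.orth
  have hint : DirectSum.IsInternal U :=
    DirectSum.isInternal_submodule_of_iSupIndep_of_iSup_eq_top hfam.indep hfam.sup
  let b := fun c => Module.finBasis K (U c)
  obtain ⟨J, iJ, iD, t, κ, ht⟩ : ∃ (J : Type) (_ : Fintype J) (_ : DecidableEq J)
      (t : Basis J K T) (κ : J → C), ∀ j, t j ∈ U (κ j) :=
    ⟨Σ c, Fin (finrank K (U c)), inferInstance, inferInstance, hint.collectedBasis b,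
      fun i => i.1, fun i => hint.collectedBasis_mem b i⟩
  have hsp := hsp_of hfam ht
  -- the inverse matrix
  have hBnd : LinearMap.BilinForm.Nondegenerate (LinearMap.flip B) := by
    refine ⟨fun x hx => hfam.nd x fun y => ?_, fun x hx => hfam.nd x fun y => hx y⟩
    rw [hsy, show B y x = 0 from hx y, mul_zero]
  set Q : Matrix J J K := Matrix.of fun i j => B (t i) (t j) with hQ
  have hQb : ∀ a b, κ b ≠ star (κ a) → Q a b = 0 := fun a b hab =>
    horth (κ a) (κ b) hab _ (ht a) _ (ht b)
  obtain ⟨R0, hR0⟩ : ∃ R : Matrix J J K, Q * R = 1 := by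
    refine ⟨Matrix.of fun j k =>
      t.repr (LinearMap.BilinForm.dualBasis (LinearMap.flip B) hBnd t k) j, ?_⟩
    ext i k
    rw [Matrix.mul_apply, Matrix.one_apply]
    simp only [hQ, Matrix.of_apply]
    have h1 := LinearMap.BilinForm.apply_dualBasis_left (B := LinearMap.flip B) hBnd t k i
    rw [LinearMap.flip_apply] at h1
    rw [← h1]
    conv_rhs => rw [← t.sum_repr (LinearMap.BilinForm.dualBasis (LinearMap.flip B) hBnd t k)]
    rw [map_sum]
    refine Finset.sum_congr rfl fun j _ => ?_
    rw [map_smul, smul_eq_mul, mul_comm]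
  let R : Matrix J J K := Matrix.of fun i j => if κ j = star (κ i) then R0 i j else 0
  have hRb : ∀ a b, κ b ≠ star (κ a) → R a b = 0 := fun a b hab => if_neg hab
  have hQR : Q * R = 1 := by
    ext i k
    have h1 := congrFun (congrFun hR0 i) k
    rw [Matrix.mul_apply] at h1 ⊢
    by_cases hik : κ k = κ i
    · rw [← h1]
      refine Finset.sum_congr rfl fun j _ => ?_
      by_cases hj : κ j = star (κ i)
      · change Q i j * (if κ k = star (κ j) then R0 j k else 0) = _
        rw [if_pos (by rw [hj, hstar, hik])]
      · rw [hQb i j hj, zero_mul, zero_mul]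
    · have h2 : i ≠ k := fun h => hik (by rw [h])
      rw [Matrix.one_apply_ne h2]
      refine Finset.sum_eq_zero fun j _ => ?_
      by_cases hj : κ j = star (κ i)
      · change Q i j * (if κ k = star (κ j) then R0 j k else 0) = _
        rw [if_neg (by rw [hj, hstar]; exact hik), mul_zero]
      · rw [hQb i j hj, zero_mul]
  -- isometries with a smaller support
  have hpU : ∀ I : Finset C, ∀ c, ∀ x ∈ U c, part t κ f I x ∈ U c := by
    intro I c x hx
    rw [part_mem hsp f I hx]
    split_ifs
    · exact hfU c x hx
    · exact hx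
  have hpB : ∀ I : Finset C, (∀ c ∈ I, star c ∈ I) → ∀ x y,
      B (part t κ f I x) (part t κ f I y) = B x y := by
    intro I hI
    have h1 : B.compl₁₂ (part t κ f I) (part t κ f I) = B := by
      refine LinearMap.ext_basis t t fun j k => ?_
      rw [LinearMap.compl₁₂_apply, part_mem hsp f I (ht j), part_mem hsp f I (ht k)]
      by_cases hjk : κ k = star (κ j)
      · by_cases hj : κ j ∈ I
        · rw [if_pos hj, if_pos (by rw [hjk]; exact hI _ hj), hf]
        · rw [if_neg hj, if_neg]
          intro hk
          apply hj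
          rw [← hstar (κ j), ← hjk]
          exact hI _ hk
      · rw [horth (κ j) (κ k) hjk _ (ht j) _ (ht k)]
        refine horth (κ j) (κ k) hjk _ ?_ _ ?_
        · split_ifs
          · exact hfU _ _ (ht j)
          · exact ht j
        · split_ifs
          · exact hfU _ _ (ht k)
          · exact ht k
    intro x y
    rw [← LinearMap.compl₁₂_apply, h1]
  have hone : ∀ (c : S → C) (φ : MultilinearMap K (fun _ : S => T) K), Sup κ c (fn t φ) →
      LInv B ((s : ℤ) : K) U star φ → ∀ i, pre (part t κ f {i, star i}) φ = φ := by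
    intro c φ hsup hφ i
    have hcl : ∀ d ∈ ({i, star i} : Finset C), star d ∈ ({i, star i} : Finset C) := by
      intro d hd
      rw [Finset.mem_insert, Finset.mem_singleton] at hd ⊢
      rcases hd with h | h
      · exact Or.inr (by rw [h])
      · exact Or.inl (by rw [h, hstar])
    refine mil_one hs hsy hstar horth ht hsp hRb hQR (hpB _ hcl) (hpU _) (i := i)
      (fun d hd1 hd2 x hx => ?_) (fun hs1 hi => ?_) _ S c φ rfl hsup hφ
    · rw [part_mem hsp f _ hx, if_neg]
      rw [Finset.mem_insert, Finset.mem_singleton]
      exact fun h => h.elim hd1 hd2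
    · rw [← hdet i hs1 hi]
      congr 1
      apply LinearMap.ext
      intro x
      apply Subtype.ext
      change part t κ f {i, star i} (x : T) = f x
      rw [part_mem hsp f _ x.2, if_pos (Finset.mem_insert_self _ _)]
  have hall : ∀ (c : S → C) (φ : MultilinearMap K (fun _ : S => T) K), Sup κ c (fn t φ) →
      LInv B ((s : ℤ) : K) U star φ → ∀ (n : ℕ) (I : Finset C), I.card = n →
      (∀ c ∈ I, star c ∈ I) → pre (part t κ f I) φ = φ := by
    intro c φ hsup hφ n
    induction n using Nat.strong_induction_on with
    | _ n ih =>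
      intro I hn hI
      rcases I.eq_empty_or_nonempty with rfl | ⟨i, hi⟩
      · have h1 : part t κ f ∅ = LinearMap.id := by
          refine t.ext fun j => ?_
          rw [part_mem hsp f _ (ht j), if_neg (Finset.notMem_empty _), LinearMap.id_apply]
        rw [h1]
        rfl
      · let I' := (I.erase i).erase (star i)
        have hI' : ∀ d, d ∈ I' ↔ d ≠ star i ∧ d ≠ i ∧ d ∈ I := fun d => by
          rw [Finset.mem_erase, Finset.mem_erase]
        have h1 : part t κ f I = part t κ f I' ∘ₗ part t κ f {i, star i} := by
          refine t.ext fun j => ?_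
          rw [LinearMap.comp_apply, part_mem hsp f _ (hpU _ _ _ (ht j)),
            part_mem hsp f _ (ht j), part_mem hsp f _ (ht j)]
          by_cases h2 : κ j ∈ ({i, star i} : Finset C)
          · rw [if_pos h2]
            rw [Finset.mem_insert, Finset.mem_singleton] at h2
            have h3 : κ j ∈ I := by
              rcases h2 with h | h
              · rw [h]; exact hi
              · rw [h]; exact hI _ hi
            rw [if_pos h3, if_neg]
            rw [hI']
            rintro ⟨h4, h5, -⟩
            exact h2.elim h5 h4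
          · rw [if_neg h2]
            rw [Finset.mem_insert, Finset.mem_singleton] at h2
            push Not at h2
            by_cases h3 : κ j ∈ I
            · rw [if_pos h3, if_pos ((hI' _).2 ⟨h2.2, h2.1, h3⟩)]
            · rw [if_neg h3, if_neg]
              rw [hI']
              exact fun h => h3 h.2.2
        rw [h1, pre_comp]
        have h4 : pre (part t κ f I') φ = φ := by
          refine ih I'.card ?_ I' rfl ?_
          · rw [← hn]
            exact lt_of_le_of_lt (Finset.card_le_card (Finset.erase_subset _ _))
              (Finset.card_erase_lt_of_mem hi)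
          · intro d hd
            rw [hI'] at hd ⊢
            refine ⟨fun h => hd.2.1 ?_, fun h => hd.1 ?_, hI _ hd.2.2⟩
            · rw [← hstar d, h, hstar]
            · rw [← hstar d, h]
        rw [h4]
        exact hone c φ hsup hφ i
  -- the components of the patterns
  let P : C → (T →ₗ[K] T) := fun c => t.constr K fun j => if κ j = c then t j else 0
  let comp : (S → C) → MultilinearMap K (fun _ : S => T) K := fun c =>
    ψ.compLinearMap fun j => P (c j)
  have hcomp : ∀ c, fn t (comp c) = cpt κ c (fn t ψ) := by
    intro c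
    funext r
    unfold cpt
    change ψ (fun j => P (c j) (t (r j))) = _
    have h1 : ∀ j, P (c j) (t (r j)) = if κ (r j) = c j then t (r j) else 0 := fun j =>
      t.constr_basis K _ (r j)
    by_cases hr : (fun j => κ (r j)) = c
    · rw [if_pos hr]
      change _ = ψ _
      congr 1
      funext j
      rw [h1, if_pos (congrFun hr j)]
    · rw [if_neg hr]
      obtain ⟨j, hj⟩ : ∃ j, κ (r j) ≠ c j := by
        by_contra h
        push Not at h
        exact hr (funext h)
      refine ψ.map_coord_zero j ?_
      rw [h1, if_neg hj]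
  have hψc : ψ = ∑ c : S → C, comp c := by
    refine Basis.ext_multilinear (fun _ => t) fun r => ?_
    rw [MultilinearMap.sum_apply]
    have h1 := congrFun (cpt_sum κ (fn t ψ)) r
    rw [Finset.sum_apply] at h1
    change fn t ψ r = ∑ c, fn t (comp c) r
    rw [← h1]
    exact Finset.sum_congr rfl fun c _ => by rw [hcomp]
  have hfin : ∀ c, pre f (comp c) = comp c := by
    intro c
    have h1 := hall c (comp c) (by rw [hcomp]; exact cpt_sup κ c _)
      (LInv.of_invS hsp hstar (by rw [hcomp]; exact cpt_inv hstar hQb (hψ.invS ht) c)) _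
      Finset.univ rfl (fun _ _ => Finset.mem_univ _)
    have h2 : part t κ f Finset.univ = f := by
      refine t.ext fun j => ?_
      rw [part_mem hsp f _ (ht j), if_pos (Finset.mem_univ _)]
    rwa [h2] at h1
  ext v
  rw [pre_apply, hψc, MultilinearMap.sum_apply, MultilinearMap.sum_apply]
  exact Finset.sum_congr rfl fun c _ => congrArg (fun F => F v) (hfin c)

end Pool.Agent.Y130.MM
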