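import Pool.Agent.Y130.MM.Pub
import Pool.Agent.Y130.MM.Mil2
import Pool.Agent.Y130.MT.Final

/-!
# Motives with isolated Frobenius eigenvalues: proofs
-/

set_option linter.unusedSectionVars false

open Module Finset Function

namespace Pool.Agent.Y130.MM

open Pool.Agent.Y130 Pool.Agent.Y130.MT Pool.Agent.TH125.Gal Pool.Agent.TH125.Nod

section det

variable {K : Type} [Field K] {T : Type} [AddCommGroup T] [Module K T] [FiniteDimensional K T]
  {C : Type} {B : T →ₗ[K] T →ₗ[K] K} {U : C → Submodule K T} {star : C → C}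

theorem det_sq (hfam : Fam B U star) {c : C} (hcc : star c = c) {m : K} {f : T →ₗ[K] T}
    (hf : ∀ x y, B (f x) (f y) = m * B x y) (hfU : ∀ x ∈ U c, f x ∈ U c) :
    LinearMap.det (f.restrict hfU) ^ 2 = m ^ finrank K (U c) := by
  classical
  let e := Module.finBasis K (U c)
  let Q : Matrix (Fin (finrank K (U c))) (Fin (finrank K (U c))) K :=
    Matrix.of fun i j => B (e i) (e j)
  let A := LinearMap.toMatrix e e (f.restrict hfU)
  have hA : ∀ j, f (e j : T) = ∑ i, A i j • (e i : T) := by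
    intro j
    have h1 := e.sum_repr ((f.restrict hfU) (e j))
    have h2 := congrArg (Submodule.subtype (U c)) h1
    rw [map_sum] at h2
    have h3 : (U c).subtype ((f.restrict hfU) (e j)) = f (e j : T) := rfl
    rw [← h3, ← h2]
    refine Finset.sum_congr rfl fun i _ => ?_
    rw [map_smul, Submodule.subtype_apply]
    congr 1
    exact (LinearMap.toMatrix_apply e e (f.restrict hfU) i j).symm
  have h1 : A.transpose * Q * A = m • Q := by
    ext p q
    have h2 := hf (e p) (e q)
    rw [hA p, hA q] at h2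
    simp only [map_sum, map_smul, LinearMap.sum_apply, LinearMap.smul_apply, smul_eq_mul] at h2
    rw [Matrix.mul_apply, Matrix.smul_apply, smul_eq_mul]
    change _ = m * B (e p) (e q)
    rw [← h2]
    refine Finset.sum_congr rfl fun y _ => ?_
    rw [Matrix.mul_apply, Finset.sum_mul, Finset.mul_sum]
    refine Finset.sum_congr rfl fun x _ => ?_
    rw [Matrix.transpose_apply]
    change A x p * B (e x) (e y) * A y q = _
    ring
  have h2 : A.det * Q.det * A.det = m ^ finrank K (U c) * Q.det := by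
    have h3 := congrArg Matrix.det h1
    rwa [Matrix.det_mul, Matrix.det_mul, Matrix.det_transpose, Matrix.det_smul,
      Fintype.card_fin] at h3
  have h3 : Q.det ≠ 0 := by
    intro h0
    obtain ⟨v, hv, hv0⟩ := Matrix.exists_vecMul_eq_zero_iff.2 h0
    apply hv
    have h4 : (∑ i, v i • (e i : T)) = 0 := by
      refine hfam.ext fun d y hy => ?_
      by_cases hd : d = c
      · subst hd
        have h5 : ∀ j, B (∑ i, v i • (e i : T)) (e j) = 0 := by
          intro j
          have h6 := congrFun hv0 j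
          rw [Matrix.vecMul, dotProduct] at h6
          rw [map_sum, LinearMap.sum_apply]
          simp only [map_smul, LinearMap.smul_apply, smul_eq_mul]
          exact h6
        have h6 := e.sum_repr ⟨y, hy⟩
        have h7 := congrArg (Submodule.subtype (U d)) h6
        rw [map_sum] at h7
        change _ = y at h7
        rw [← h7, map_sum]
        refine Finset.sum_eq_zero fun j _ => ?_
        rw [map_smul, map_smul, Submodule.subtype_apply, h5, smul_zero]
      · refine hfam.orth c d (by rw [hcc]; exact hd) _ ?_ y hy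
        exact Submodule.sum_mem _ fun i _ => Submodule.smul_mem _ _ (e i).2
    have h5 : (∑ i, v i • e i) = 0 := by
      apply Subtype.ext
      rw [← Submodule.subtype_apply, map_sum]
      exact h4
    funext i
    exact Fintype.linearIndependent_iff.1 e.linearIndependent v h5 i
  have h4 : LinearMap.det (f.restrict hfU) = A.det := (LinearMap.det_toMatrix e _).symm
  rw [h4]
  apply mul_right_cancel₀ h3
  rw [← h2]
  ring

end det

section sub

variable {K : Type} [Field K] {E : Type} [AddCommGroup E] [Module K E] {G : Type} [Group G]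

/-- the vectors on which a subgroup of finite index acts through `q ^ j` -/
def motSub (q : G →* Kˣ) (σ : Representation K G E) (j : ℤ) : Submodule K E where
  carrier := {w | ∃ Δ : Subgroup G, Δ.FiniteIndex ∧ ∀ g ∈ Δ, σ g w = ((q g ^ j : Kˣ) : K) • w}
  zero_mem' := ⟨⊤, inferInstance, fun g _ => by rw [map_zero, smul_zero]⟩
  add_mem' := by
    rintro w w' ⟨Δ, hΔ, h⟩ ⟨Δ', hΔ', h'⟩
    refine ⟨Δ ⊓ Δ', inferInstance, fun g hg => ?_⟩
    rw [map_add, h g hg.1, h' g hg.2, smul_add]
  smul_mem' := by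
    rintro r w ⟨Δ, hΔ, h⟩
    refine ⟨Δ, hΔ, fun g hg => ?_⟩
    rw [map_smul, h g hg, smul_comm]

end sub

variable {K : Type} [Field K] [CharZero K] [IsAlgClosed K] {T : Type} [AddCommGroup T]
  [Module K T] [FiniteDimensional K T] {V : Type}
  [AddCommGroup V] [Module K V] {E : Type} [AddCommGroup E] [Module K E]
  [FiniteDimensional K E] {Γ G : Type} [Group Γ] [Group G] {C : Type} {ι : Γ →* G}
  {q : G →* Kˣ} {w : ℕ} {τ : Representation K G T} {ρ : Representation K G V}
  {σ : Representation K G E} {B : T →ₗ[K] T →ₗ[K] K} {U : C → Submodule K T} {star : C → C}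
  {G₀ : Subgroup G} {H : Γ → Subgroup Kˣ}

theorem comap_fin {Δ : Subgroup G} (h : Δ.FiniteIndex) : (Δ.comap ι).FiniteIndex := by
  refine ⟨?_⟩
  have h1 := Subgroup.index_comap Δ ι
  rw [h1]
  exact (Subgroup.isFiniteRelIndex_of_finiteIndex (H := Δ) (K := ι.range)).relIndex_ne_zero

theorem IsolatedMotive.fam (h : IsolatedMotive ι q w τ B U star G₀ H) : Fam B U star :=
  ⟨h.nondeg, h.sup, h.orth, h.star_star⟩

theorem IsolatedMotive.dat (h : IsolatedMotive ι q w τ B U star G₀ H) :
    Dat B (τ.comp ι) U star (G₀.comap ι) :=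
  ⟨h.fam, comap_fin h.index, fun g hg => h.stable (ι g) hg, h.ne, h.irreducible⟩

theorem signs (w : ℕ) : (((-1 : ℤ) ^ w : ℤ) : K) = (-1) ^ w := by push_cast; rfl

theorem sign_or (w : ℕ) : (-1 : ℤ) ^ w = 1 ∨ (-1 : ℤ) ^ w = -1 := neg_one_pow_eq_or ℤ w

/-- the subgroup of the elements with the right determinants on the orthogonal blocks -/
theorem exists_G₁ [Finite C] (h : IsolatedMotive ι q w τ B U star G₀ H) :
    ∃ G₁ : Subgroup G, G₁.FiniteIndex ∧ ∃ hle : ∀ g ∈ G₁, ∀ c, ∀ x ∈ U c, τ g x ∈ U c,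
      ∀ g (hg : g ∈ G₁), ∀ c, star c = c → Even w →
        LinearMap.det ((τ g).restrict (hle g hg c)) = (q g : K) ^ (w / 2 * finrank K (U c)) := by
  classical
  have := Fintype.ofFinite C
  have := h.index
  let rr : ∀ c, G₀ →* (U c →ₗ[K] U c) := fun c =>
    { toFun := fun g => (τ (g : G)).restrict (h.stable g g.2 c)
      map_one' := by
        apply LinearMap.ext
        intro x
        apply Subtype.ext
        rw [LinearMap.restrict_coe_apply]
        simp
      map_mul' := fun g g' => by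
        apply LinearMap.ext
        intro x
        apply Subtype.ext
        rw [LinearMap.restrict_coe_apply]
        simp [LinearMap.restrict_coe_apply] }
  let ε : ∀ c, G₀ →* Kˣ := fun c =>
    (LinearMap.det.comp (rr c)).toHomUnits * ((q.comp G₀.subtype) ^ (w / 2 * finrank K (U c)))⁻¹
  have hεv : ∀ c (g : G₀), (ε c g : K) * (q g : K) ^ (w / 2 * finrank K (U c)) =
      LinearMap.det ((τ (g : G)).restrict (h.stable g g.2 c)) := by
    intro c g
    change ((((LinearMap.det.comp (rr c)).toHomUnits g) *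
      (q (g : G) ^ (w / 2 * finrank K (U c)))⁻¹ : Kˣ) : K) * _ = _
    rw [Units.val_mul, mul_assoc, ← Units.val_pow_eq_pow_val, ← Units.val_mul,
      inv_mul_cancel, Units.val_one, mul_one]
    rfl
  have hε2 : ∀ c, star c = c → Even w → ∀ g : G₀, ε c g ^ 2 = 1 := by
    intro c hc hw g
    apply Units.ext
    have h1 := det_sq h.fam hc (m := (q g : K) ^ w) (fun x y => h.equiv g x y)
      (h.stable g g.2 c)
    rw [← hεv c g, mul_pow, ← pow_mul, ← pow_mul] at h1
    have h2 : w / 2 * finrank K (U c) * 2 = w * finrank K (U c) := by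
      rw [mul_right_comm, Nat.div_mul_cancel hw.two_dvd]
    rw [h2] at h1
    have h3 : (q (g : G) : K) ^ (w * finrank K (U c)) ≠ 0 := pow_ne_zero _ (Units.ne_zero _)
    rw [Units.val_pow_eq_pow_val, Units.val_one]
    exact mul_right_cancel₀ h3 (by rw [h1, one_mul])
  let εc : ∀ c, G₀ →* Kˣ := fun c => if star c = c ∧ Even w then ε c else 1
  have hfin : ∀ c, (εc c).ker.FiniteIndex := by
    intro c
    have h1 : ∀ g, εc c g ^ 2 = 1 := by
      intro g
      by_cases hc : star c = c ∧ Even w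
      · have : εc c = ε c := if_pos hc
        rw [this]
        exact hε2 c hc.1 hc.2 g
      · have : εc c = 1 := if_neg hc
        rw [this, MonoidHom.one_apply, one_pow]
    have h2 : (Set.range (εc c)).Finite := by
      refine Set.Finite.subset (Set.toFinite {(1 : Kˣ), -1}) ?_
      rintro _ ⟨g, rfl⟩
      have h3 := congrArg Units.val (h1 g)
      rw [Units.val_pow_eq_pow_val, Units.val_one] at h3
      have h4 : ((εc c g : K) - 1) * ((εc c g : K) + 1) = 0 := by linear_combination h3
      rcases mul_eq_zero.1 h4 with h5 | h5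
      · exact Or.inl (Units.ext (sub_eq_zero.1 h5))
      · exact Or.inr (Units.ext (by
          rw [Units.val_neg, Units.val_one]
          exact eq_neg_of_add_eq_zero_left h5))
    have : Finite (εc c).range := h2.to_subtype
    infer_instance
  have hinf : (⨅ c, (εc c).ker).FiniteIndex := Subgroup.finiteIndex_iInf hfin
  refine ⟨(⨅ c, (εc c).ker).map G₀.subtype, ⟨?_⟩, ?_, ?_⟩
  · rw [Subgroup.index_map_subtype]
    exact mul_ne_zero hinf.index_ne_zero h.index.index_ne_zero
  · rintro _ ⟨g, -, rfl⟩ c x hx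
    exact h.stable g g.2 c x hx
  · rintro _ ⟨g, hg, rfl⟩ c hc hw
    have h1 : εc c g = 1 := by
      have h2 := Subgroup.mem_iInf.1 hg c
      exact h2
    have h2 : εc c = ε c := if_pos ⟨hc, hw⟩
    rw [h2] at h1
    have h3 := hεv c g
    rw [h1, Units.val_one, one_mul] at h3
    exact h3.symm

theorem key_aux [Finite C] (h : IsolatedMotive ι q w τ B U star G₀ H) {g : G}
    (hle : ∀ c, ∀ x ∈ U c, τ g x ∈ U c) {r : K} (hr0 : r ≠ 0) (hr : r ^ 2 = (q g : K) ^ w)
    (hdet : ∀ c, star c = c → Even w →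
      LinearMap.det ((τ g).restrict (hle c)) = r ^ finrank K (U c)) {n : ℕ}
    (ψ : MultilinearMap K (fun _ : Fin n => T) K)
    (hψ : LInv B (((-1 : ℤ) ^ w : ℤ) : K) U star ψ) (v : Fin n → T) :
    ψ (fun j => τ g (v j)) = r ^ n * ψ v := by
  classical
  have hfU : ∀ c, ∀ x ∈ U c, (r⁻¹ • τ g) x ∈ U c := fun c x hx => by
    rw [LinearMap.smul_apply]
    exact Submodule.smul_mem _ _ (hle c x hx)
  have h1 := mil (s := (-1 : ℤ) ^ w) (sign_or w) (fun x y => by rw [signs]; exact h.symm x y)
    h.fam (f := r⁻¹ • τ g) (fun x y => by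
      rw [LinearMap.smul_apply, LinearMap.smul_apply, map_smul, map_smul, LinearMap.smul_apply,
        h.equiv, smul_eq_mul, smul_eq_mul, ← hr]
      field_simp) hfU (fun c hs hc => by
      have hw : Even w := (neg_one_pow_eq_one_iff_even (by norm_num)).1 hs
      have h2 : (r⁻¹ • τ g).restrict (hfU c) = r⁻¹ • (τ g).restrict (hle c) := rfl
      rw [h2, LinearMap.det_smul, hdet c hc hw, ← mul_pow, inv_mul_cancel₀ hr0, one_pow]) ψ hψ
  have h2 := congrArg (fun F => F v) h1
  change ψ (fun j => r⁻¹ • τ g (v j)) = ψ v at h2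
  rw [MultilinearMap.map_smul_univ ψ (fun _ => r⁻¹) (fun j => τ g (v j)), Finset.prod_const,
    Finset.card_univ, Fintype.card_fin, smul_eq_mul] at h2
  rw [← h2, ← mul_assoc, ← mul_pow, mul_inv_cancel₀ hr0, one_pow, one_mul]

theorem key [Finite C] (h : IsolatedMotive ι q w τ B U star G₀ H) {g : G}
    (hle : ∀ c, ∀ x ∈ U c, τ g x ∈ U c)
    (hdet : ∀ c, star c = c → Even w →
      LinearMap.det ((τ g).restrict (hle c)) = (q g : K) ^ (w / 2 * finrank K (U c))) {n : ℕ}
    (ψ : MultilinearMap K (fun _ : Fin n => T) K)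
    (hψ : LInv B (((-1 : ℤ) ^ w : ℤ) : K) U star ψ) (v : Fin n → T) :
    ψ (fun j => τ g (v j)) = (q g : K) ^ (w * n / 2) * ψ v := by
  classical
  rcases Nat.even_or_odd w with hw | hw
  · obtain ⟨k, hk⟩ := hw
    have hk2 : w / 2 = k := by omega
    have h1 := key_aux h hle (r := (q g : K) ^ k) (pow_ne_zero _ (Units.ne_zero _))
      (by rw [← pow_mul]; congr 1; omega) (fun c hc hw => by
        rw [hdet c hc hw, hk2, pow_mul]) ψ hψ v
    rw [h1, ← pow_mul]
    congr 2
    have h2 : w * n = (k * n) * 2 := by rw [hk]; ring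
    omega
  · have hw' : ¬ Even w := Nat.not_even_iff_odd.2 hw
    rcases Nat.even_or_odd n with hn | hn
    · obtain ⟨m, hm⟩ := hn
      obtain ⟨r, hr⟩ := IsAlgClosed.exists_pow_nat_eq ((q g : K) ^ w) two_pos
      have hr0 : r ≠ 0 := by
        rintro rfl
        rw [zero_pow two_ne_zero] at hr
        exact pow_ne_zero w (Units.ne_zero (q g)) hr.symm
      have h1 := key_aux h hle hr0 hr (fun c _ hw => absurd hw hw') ψ hψ v
      rw [h1]
      congr 1
      have h2 : n = 2 * m := by omega
      have h3 : w * n = (w * m) * 2 := by rw [h2]; ring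
      have h4 : w * n / 2 = w * m := by omega
      rw [h4, h2, pow_mul, hr, ← pow_mul]
    · have h0 : ∀ v, ψ v = 0 := by
        intro v
        have hs : (-1 : ℤ) ^ w = -1 := hw.neg_one_pow
        have h1 := mil (s := (-1 : ℤ) ^ w) (sign_or w)
          (fun x y => by rw [signs]; exact h.symm x y)
          h.fam (f := -LinearMap.id) (fun x y => by simp) (fun c x hx => by
            rw [LinearMap.neg_apply, LinearMap.id_apply]
            exact (U c).neg_mem hx) (fun c hs' hc => by
            rw [hs] at hs'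
            norm_num at hs') ψ hψ
        have h2 := congrArg (fun F => F v) h1
        change ψ (fun j => -(v j)) = ψ v at h2
        have h3 : (fun j => -(v j)) = fun j => (-1 : K) • v j := by
          funext j
          rw [neg_one_smul]
        rw [h3, MultilinearMap.map_smul_univ ψ (fun _ => (-1 : K)) v, Finset.prod_const,
          Finset.card_univ, Fintype.card_fin, hn.neg_one_pow, smul_eq_mul] at h2
        have h4 : (2 : K) * ψ v = 0 := by linear_combination -h2
        exact (mul_eq_zero.1 h4).resolve_left two_ne_zero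
      rw [h0, h0, mul_zero]

/-- The case of the motive itself. -/
theorem main_T [Finite C] (h : IsolatedMotive ι q w τ B U star G₀ H)
    (hE : EigenvaluesIn ι H σ) (hT : TateMotivated ι q σ) (n : ℕ) :
    TateMotivated ι q (homRep n τ σ) := by
  classical
  rintro j φ ⟨Δ₁, hΔ₁, hφ⟩
  -- the twisted Galois representation
  let σ' : Γ →* (E →ₗ[K] E) :=
    { toFun := fun s => ((q (ι s) ^ (-j) : Kˣ) : K) • σ (ι s)
      map_one' := by
        rw [map_one, map_one, map_one, one_zpow, Units.val_one, one_smul]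
      map_mul' := fun s t => by
        rw [map_mul, map_mul, map_mul, mul_zpow, Units.val_mul]
        apply LinearMap.ext
        intro x
        simp only [LinearMap.smul_apply, Module.End.mul_apply, map_smul, smul_smul]
        rw [mul_comm] }
  let μ : Γ →* K :=
    { toFun := fun s => (q (ι s) : K) ^ w
      map_one' := by rw [map_one, map_one, Units.val_one, one_pow]
      map_mul' := fun s t => by rw [map_mul, map_mul, Units.val_mul, mul_pow] }
  let ν : Γ →* K :=
    { toFun := fun s => (q (ι s) : K) ^ (w * n / 2)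
      map_one' := by rw [map_one, map_one, Units.val_one, one_pow]
      map_mul' := fun s t => by rw [map_mul, map_mul, Units.val_mul, mul_pow] }
  have hσ' : ∀ s x, σ' s x = ((q (ι s) ^ (-j) : Kˣ) : K) • σ (ι s) x := fun s x => rfl
  have hcan : ∀ s, ((q (ι s) ^ (-j) : Kˣ) : K) * ((q (ι s) ^ j : Kˣ) : K) = 1 := by
    intro s
    rw [← Units.val_mul, ← zpow_add, neg_add_cancel, zpow_zero, Units.val_one]
  have hEqv : Eqv (τ.comp ι) σ' φ := by
    refine ⟨Δ₁, hΔ₁, fun s hs v => ?_⟩
    have h1 := congrArg (fun F => F fun l => τ (ι s) (v l)) (hφ s hs)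
    change σ (ι s) (φ fun l => τ (ι s)⁻¹ (τ (ι s) (v l))) =
      ((q (ι s) ^ j : Kˣ) : K) • φ (fun l => τ (ι s) (v l)) at h1
    have h2 : (fun l => τ (ι s)⁻¹ (τ (ι s) (v l))) = v := by
      funext l
      rw [← Module.End.mul_apply, ← map_mul, inv_mul_cancel, map_one, Module.End.one_apply]
    rw [h2] at h1
    rw [hσ', h1, smul_smul, hcan, one_smul]
    rfl
  have hH : ContainsEigenvalues H μ σ' := by
    intro F
    refine ⟨⟨q (ι F) ^ w, Subgroup.pow_mem _ (h.tate F) w, Units.val_pow_eq_pow_val _ _⟩, ?_⟩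
    rintro β ⟨x, hx0, hx⟩
    have h1 : σ (ι F) x = (((q (ι F) ^ j : Kˣ) : K) * β) • x := by
      rw [mul_smul, ← hx, hσ', smul_smul, mul_comm, hcan, one_smul]
    obtain ⟨u, hu, hu'⟩ := hE F _ ⟨x, hx0, h1⟩
    refine ⟨q (ι F) ^ (-j) * u, Subgroup.mul_mem _ (Subgroup.zpow_mem _ (h.tate F) _) hu, ?_⟩
    rw [Units.val_mul, hu', ← mul_assoc, hcan, one_mul]
  have hs : ((((-1 : ℤ) ^ w : ℤ)) : K) = 1 ∨ ((((-1 : ℤ) ^ w : ℤ)) : K) = -1 := by
    rcases sign_or w with h1 | h1 <;> rw [h1] <;> simp
  have hall : ∀ c, ∀ x ∈ U (star c), ∀ y ∈ U c,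
      pp B ((((-1 : ℤ) ^ w : ℤ)) : K) x y ∈ LL (Fin n) B (τ.comp ι) σ' := by
    intro c x hx y hy
    refine alg_main (S := Fin n) (μ := μ) hs (fun x y => by rw [signs]; exact h.symm x y)
      (fun g x y => h.equiv (ι g) x y) h.dat (fun c => ?_) (fun c hc => ?_) c hx hy
    · rcases h.isolated c with h1 | ⟨F, a, v, hv, h1⟩
      · exact Or.inl h1
      · exact Or.inr ⟨F, a, v, hv, IsolatedEigenvector.isoF (τ := τ.comp ι) (χ := μ) hH h1⟩
    · obtain ⟨F, hF⟩ := h.det c hc
      exact ⟨F, MT.cenF (τ := τ.comp ι) (χ := μ) hH hF⟩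
  have hL : ∀ f : E →ₗ[K] K, LInv B ((((-1 : ℤ) ^ w : ℤ)) : K) U star
      (f.compMultilinearMap φ) := by
    intro f c x hx y hy v
    have h1 := (hall c x hx y hy).2 φ hEqv v
    have h2 := congrArg f h1
    rw [map_sum, map_zero] at h2
    exact h2
  let P : Set (MultilinearMap K (fun _ : Fin n => T) K) :=
    {ψ | LInv B ((((-1 : ℤ) ^ w : ℤ)) : K) U star ψ}
  let b := Module.finBasis K E
  have hmem : φ ∈ Submodule.span K {F : MultilinearMap K (fun _ : Fin n => T) E |
      ∃ g ∈ P, ∃ e : E, F = g.smulRight e} := by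
    have h1 : φ = ∑ k, ((b.coord k).compMultilinearMap φ).smulRight (b k) := by
      ext v
      rw [MultilinearMap.sum_apply]
      exact (b.sum_repr (φ v)).symm
    rw [h1]
    exact Submodule.sum_mem _ fun k _ => Submodule.subset_span ⟨_, hL _, _, rfl⟩
  obtain ⟨G₁, hG₁, hle, hdet⟩ := exists_G₁ h
  have hkey : ∀ ψ ∈ P, ∀ g ∈ G₁, ∀ v : Fin n → T,
      ψ (fun l => τ g (v l)) = (q g : K) ^ (w * n / 2) * ψ v :=
    fun ψ hψ g hg v => key h (hle g hg) (fun c hc hw => hdet g hg c hc hw) ψ hψ v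
  have hfi : (Δ₁ ⊓ G₁.comap ι).FiniteIndex := by
    have := comap_fin (ι := ι) hG₁
    infer_instance
  have h3 := invariant_coeff (τ.comp ι) σ' ν (Δ₁ ⊓ G₁.comap ι) P
    (fun ψ hψ s hs v => hkey ψ hψ (ι s) hs.2 v) hmem (fun s hs v => by
      have h1 := congrArg (fun F => F fun l => τ (ι s) (v l)) (hφ s hs.1)
      change σ (ι s) (φ fun l => τ (ι s)⁻¹ (τ (ι s) (v l))) =
        ((q (ι s) ^ j : Kˣ) : K) • φ (fun l => τ (ι s) (v l)) at h1
      have h2 : (fun l => τ (ι s)⁻¹ (τ (ι s) (v l))) = v := by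
        funext l
        rw [← Module.End.mul_apply, ← map_mul, inv_mul_cancel, map_one, Module.End.one_apply]
      rw [h2] at h1
      rw [hσ', h1, smul_smul, hcan, one_smul]
      rfl)
  have h4 : φ ∈ motSub q (homRep n τ σ) j := by
    refine Submodule.span_le.2 ?_ h3
    rintro _ ⟨ψ, hψ, e, he, rfl⟩
    have he' : ∀ s ∈ Δ₁ ⊓ G₁.comap ι,
        σ (ι s) e = ((q (ι s) ^ (j + ((w * n / 2 : ℕ) : ℤ)) : Kˣ) : K) • e := by
      intro s hs
      have h5 := he s hs
      rw [hσ'] at h5
      rw [zpow_add, Units.val_mul, mul_smul, zpow_natCast, Units.val_pow_eq_pow_val]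
      change _ = ((q (ι s) ^ j : Kˣ) : K) • (ν s • e)
      rw [← h5, smul_smul, mul_comm, hcan, one_smul]
    obtain ⟨Δ', hΔ', he2⟩ := hT _ e ⟨_, hfi, he'⟩
    refine ⟨Δ' ⊓ G₁, inferInstance, fun g hg => ?_⟩
    ext v
    change σ g (ψ (fun l => τ g⁻¹ (v l)) • e) = ((q g ^ j : Kˣ) : K) • (ψ v • e)
    rw [hkey ψ hψ g⁻¹ (Subgroup.inv_mem _ hg.2), map_smul, he2 g hg.1, smul_smul, smul_smul,
      map_inv, zpow_add, Units.val_mul, zpow_natCast, Units.val_pow_eq_pow_val]
    congr 1
    have h5 : ((q g)⁻¹ : Kˣ).val ^ (w * n / 2) * (q g : K) ^ (w * n / 2) = 1 := by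
      rw [← mul_pow, Units.inv_mul, one_pow]
    linear_combination ψ v * ((q g ^ j : Kˣ) : K) * h5
  exact h4

/-- The case of a direct summand of a sum of copies. -/
theorem main_V [Finite C] (hdom : SummandOfCopies τ ρ)
    (h : IsolatedMotive ι q w τ B U star G₀ H)
    (hE : EigenvaluesIn ι H σ) (hT : TateMotivated ι q σ) (n : ℕ) :
    TateMotivated ι q (homRep n ρ σ) := by
  classical
  rintro j φ ⟨Δ₁, hΔ₁, hφ⟩
  obtain ⟨r, i, p, hi, hp, hip⟩ := hdom
  let pb : (Fin n → Fin r) → (MultilinearMap K (fun _ : Fin n => T) E →ₗ[K]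
      MultilinearMap K (fun _ : Fin n => V) E) := fun k =>
    { toFun := fun f => f.compLinearMap fun s => p (k s)
      map_add' := fun _ _ => rfl
      map_smul' := fun _ _ => rfl }
  let qq : (Fin n → Fin r) → MultilinearMap K (fun _ : Fin n => T) E := fun k =>
    φ.compLinearMap fun s => i (k s)
  have hsum : φ = ∑ k : Fin n → Fin r, pb k (qq k) := by
    ext v
    rw [MultilinearMap.sum_apply]
    have h1 : φ v = φ (fun s => ∑ k, i k (p k (v s))) := by
      congr 1
      funext s
      rw [hip]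
    rw [h1, MultilinearMap.map_sum]
    rfl
  have hq : ∀ k, qq k ∈ motSub q (homRep n τ σ) j := by
    intro k
    refine main_T h hE hT n j (qq k) ⟨Δ₁, hΔ₁, fun s hs => ?_⟩
    ext v
    change σ (ι s) (φ fun l => i (k l) (τ (ι s)⁻¹ (v l))) =
      ((q (ι s) ^ j : Kˣ) : K) • φ fun l => i (k l) (v l)
    have h1 := congrArg (fun F => F fun l => i (k l) (v l)) (hφ s hs)
    change σ (ι s) (φ fun l => ρ (ι s)⁻¹ (i (k l) (v l))) =
      ((q (ι s) ^ j : Kˣ) : K) • φ (fun l => i (k l) (v l)) at h1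
    rw [← h1]
    congr 2
    funext l
    rw [hi]
  have hmem : φ ∈ motSub q (homRep n ρ σ) j := by
    rw [hsum]
    refine Submodule.sum_mem _ fun k _ => ?_
    obtain ⟨Δ, hΔ, h1⟩ := hq k
    refine ⟨Δ, hΔ, fun g hg => ?_⟩
    ext v
    change σ g (qq k fun l => p (k l) (ρ g⁻¹ (v l))) =
      ((q g ^ j : Kˣ) : K) • qq k fun l => p (k l) (v l)
    have h2 := congrArg (fun F => F fun l => p (k l) (v l)) (h1 g hg)
    change σ g (qq k fun l => τ g⁻¹ (p (k l) (v l))) =
      ((q g ^ j : Kˣ) : K) • qq k (fun l => p (k l) (v l)) at h2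
    rw [← h2]
    congr 2
    funext l
    rw [hp]
  exact hmem

/-- The converse. -/
theorem of_homRep (hT : TateMotivated ι q (homRep 0 ρ σ)) : TateMotivated ι q σ := by
  rintro j e ⟨Δ, hΔ, he⟩
  obtain ⟨Δ', hΔ', h⟩ := hT j (MultilinearMap.constOfIsEmpty K (fun _ : Fin 0 => V) e)
    ⟨Δ, hΔ, fun s hs => by
      ext v
      exact he s hs⟩
  refine ⟨Δ', hΔ', fun g hg => ?_⟩
  have h1 := congrArg (fun F => F fun l => Fin.elim0 l) (h g hg)
  exact h1

end Pool.Agent.Y130.MM
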