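import Pool.Agent.Y130.MM.Contr

/-!
# Isometries of determinant one act trivially on the forms killed by the Lie algebras
-/

set_option linter.unusedSectionVars false

open Module Finset Function

namespace Pool.Agent.Y130.MM

open Pool.Agent.Y130 Pool.Agent.TH125.Gal Pool.Agent.TH125.Nod

variable {K : Type} [Field K] [CharZero K] {T : Type} [AddCommGroup T] [Module K T]
  {C : Type} [DecidableEq C] {B : T →ₗ[K] T →ₗ[K] K} {s : ℤ}
  {U : C → Submodule K T} {star : C → C}

/-- composition with an operator -/
def pre {S : Type} (f : T →ₗ[K] T) (ψ : MultilinearMap K (fun _ : S => T) K) :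
    MultilinearMap K (fun _ : S => T) K := ψ.compLinearMap fun _ => f

theorem pre_apply {S : Type} (f : T →ₗ[K] T) (ψ : MultilinearMap K (fun _ : S => T) K)
    (v : S → T) : pre f ψ v = ψ fun j => f (v j) := rfl

theorem repr_zero {J : Type} {t : Basis J K T} {κ : J → C}
    (hsp : ∀ c, ∀ x ∈ U c, x ∈ Submodule.span K (t '' {j | κ j = c})) {c : C} {x : T}
    (hx : x ∈ U c) {k : J} (hk : κ k ≠ c) : t.repr x k = 0 := by
  have h1 := hsp c x hx
  rw [Basis.mem_span_image] at h1
  by_contra h2
  exact hk (h1 (Finsupp.mem_support_iff.2 h2))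

/-- A form with a pattern vanishes on vectors in other blocks. -/
theorem sup_zero {S : Type} [Fintype S] [DecidableEq S] {J : Type} [Fintype J] [DecidableEq J]
    {t : Basis J K T} {κ : J → C}
    (hsp : ∀ c, ∀ x ∈ U c, x ∈ Submodule.span K (t '' {j | κ j = c}))
    {ψ : MultilinearMap K (fun _ : S => T) K} {c : S → C} (hψ : Sup κ c (fn t ψ)) {v : S → T}
    {d : S → C} (hv : ∀ j, v j ∈ U (d j)) {j₀ : S} (hj₀ : d j₀ ≠ c j₀) : ψ v = 0 := by
  have h1 : ψ v = ψ fun j => ∑ k, t.repr (v j) k • t k := by
    congr 1
    funext j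
    exact (t.sum_repr (v j)).symm
  rw [h1, MultilinearMap.map_sum]
  refine Finset.sum_eq_zero fun r _ => ?_
  rw [MultilinearMap.map_smul_univ]
  by_cases hr : ∀ j, κ (r j) = c j
  · rw [Finset.prod_eq_zero (Finset.mem_univ j₀), zero_smul]
    exact repr_zero hsp (hv j₀) (by rw [hr j₀]; exact Ne.symm hj₀)
  · have h2 : fn t ψ r = 0 := hψ r hr
    unfold fn at h2
    rw [h2, smul_zero]

theorem LInv.pre {S : Type} [Fintype S] [DecidableEq S] {f : T →ₗ[K] T}
    (hf : ∀ x y, B (f x) (f y) = B x y) (hfU : ∀ c, ∀ x ∈ U c, f x ∈ U c) {σ : K}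
    {ψ : MultilinearMap K (fun _ : S => T) K} (h : LInv B σ U star ψ) :
    LInv B σ U star (pre f ψ) := by
  intro c x hx y hy v
  rw [← h c (f x) (hfU _ x hx) (f y) (hfU _ y hy) fun j => f (v j)]
  refine Finset.sum_congr rfl fun j _ => ?_
  rw [pre_apply]
  congr 1
  funext l
  by_cases hl : l = j
  · subst hl
    rw [update_self, update_self, pp_apply, pp_apply, map_sub, map_smul, map_smul, hf, hf]
  · rw [update_of_ne hl, update_of_ne hl]

theorem LInv.sub {S : Type} [Fintype S] [DecidableEq S] {σ : K}
    {ψ ψ' : MultilinearMap K (fun _ : S => T) K} (h : LInv B σ U star ψ)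
    (h' : LInv B σ U star ψ') : LInv B σ U star (ψ - ψ') := by
  intro c x hx y hy v
  have h1 := h c x hx y hy v
  have h2 := h' c x hx y hy v
  simp only [MultilinearMap.sub_apply, Finset.sum_sub_distrib]
  rw [h1, h2, sub_zero]

theorem Sup_sub {S : Type} {J : Type} {κ : J → C} {c : S → C} {f g : (S → J) → K}
    (hf : Sup κ c f) (hg : Sup κ c g) : Sup κ c (f - g) := by
  intro r hr
  rw [Pi.sub_apply, hf r hr, hg r hr, sub_zero]

/-- the determinant of an operator on a block through alternating forms -/
theorem altA_pre {S : Type} [Fintype S] [DecidableEq S] {J : Type} [Fintype J] [DecidableEq J]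
    {t : Basis J K T} {κ : J → C} (ht : ∀ j, t j ∈ U (κ j))
    (hsp : ∀ c, ∀ x ∈ U c, x ∈ Submodule.span K (t '' {j | κ j = c}))
    {f : T →ₗ[K] T} (hfU : ∀ c, ∀ x ∈ U c, f x ∈ U c) {i : C}
    (hfi : ∀ d, d ≠ i → ∀ x ∈ U d, f x = x)
    (hdet : LinearMap.det (f.restrict (hfU i)) = 1)
    {c : S → C} {A : Finset S} (hA : A = univ.filter (c · = i)) (hcard : A.card = (blk κ i).card)
    (ψ : MultilinearMap K (fun _ : S => T) K) {r : S → J} (hr : ∀ j, κ (r j) = c j) :
    altA A (fn t (pre f ψ)) r = altA A (fn t ψ) r := by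
  have hAi : ∀ j, j ∈ A ↔ c j = i := fun j => by
    rw [hA, Finset.mem_filter]
    exact ⟨fun h => h.2, fun h => ⟨Finset.mem_univ _, h⟩⟩
  -- a basis of the block
  have hspan : U i = Submodule.span K (Set.range fun j : {j // κ j = i} => t j.1) := by
    refine le_antisymm (fun x hx => ?_) (Submodule.span_le.2 ?_)
    · refine Submodule.span_mono ?_ (hsp i x hx)
      rintro _ ⟨j, hj, rfl⟩
      exact ⟨⟨j, hj⟩, rfl⟩
    · rintro _ ⟨j, rfl⟩
      have := ht j.1
      rw [j.2] at this
      exact this
  have hfin : finrank K (U i) = (blk κ i).card := by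
    have hli : LinearIndependent K (fun j : {j // κ j = i} => t j.1) :=
      t.linearIndependent.comp _ Subtype.val_injective
    rw [hspan, finrank_span_eq_card hli, Fintype.card_subtype]
    rfl
  have : Module.Finite K T := Module.Finite.of_basis t
  let e : Basis {x // x ∈ A} K (U i) :=
    (Module.finBasis K (U i)).reindex (Fintype.equivOfCardEq (by
      rw [Fintype.card_fin, Fintype.card_coe, hfin, hcard]))
  let g : MultilinearMap K (fun _ : {x // x ∈ A} => U i) K :=
    (ψ.domDomRestrict (fun j => j ∈ A) (fun z => t (r z.1))).compLinearMap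
      fun _ => (U i).subtype
  have hg : ∀ w : {x // x ∈ A} → U i,
      g w = ψ fun j => if h : j ∈ A then (w ⟨j, h⟩ : T) else t (r j) := fun w => rfl
  let w0 : {x // x ∈ A} → U i := fun j => ⟨t (r j.1), by
    have h1 := ht (r j.1)
    rw [hr, (hAi _).1 j.2] at h1
    exact h1⟩
  have h0 : ∀ π : Equiv.Perm {x // x ∈ A}, (fn t ψ) (fun j => r (Equiv.Perm.ofSubtype π j)) =
      g fun j => w0 (π j) := by
    intro π
    rw [hg]
    unfold fn
    congr 1
    funext j
    change t (r (Equiv.Perm.ofSubtype π j)) = _
    by_cases hj : j ∈ A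
    · rw [dif_pos hj, Equiv.Perm.ofSubtype_apply_of_mem π hj]
    · rw [dif_neg hj, Equiv.Perm.ofSubtype_apply_of_not_mem π hj]
  have h1 : ∀ π : Equiv.Perm {x // x ∈ A},
      (fn t (pre f ψ)) (fun j => r (Equiv.Perm.ofSubtype π j)) =
      g fun j => (f.restrict (hfU i)) (w0 (π j)) := by
    intro π
    rw [hg]
    unfold fn
    rw [pre_apply]
    congr 1
    funext j
    change f (t (r (Equiv.Perm.ofSubtype π j))) = _
    by_cases hj : j ∈ A
    · rw [dif_pos hj, Equiv.Perm.ofSubtype_apply_of_mem π hj]
      rfl
    · rw [dif_neg hj, Equiv.Perm.ofSubtype_apply_of_not_mem π hj]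
      exact hfi (κ (r j)) (by rw [hr]; exact fun h => hj ((hAi j).2 h)) _ (ht _)
  have hL : altA A (fn t ψ) r = MultilinearMap.alternatization g w0 := by
    rw [altA_apply, Finset.sum_apply, MultilinearMap.alternatization_apply]
    refine Finset.sum_congr rfl fun π _ => ?_
    rw [Pi.smul_apply, smul_eq_mul, MultilinearMap.domDomCongr_apply, Units.smul_def,
      zsmul_eq_mul]
    congr 1
    exact h0 π
  have hR : altA A (fn t (pre f ψ)) r =
      MultilinearMap.alternatization g (fun j => (f.restrict (hfU i)) (w0 j)) := by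
    rw [altA_apply, Finset.sum_apply, MultilinearMap.alternatization_apply]
    refine Finset.sum_congr rfl fun π _ => ?_
    rw [Pi.smul_apply, smul_eq_mul, MultilinearMap.domDomCongr_apply, Units.smul_def,
      zsmul_eq_mul]
    congr 1
    exact h1 π
  rw [hL, hR]
  generalize MultilinearMap.alternatization g = G
  rw [G.eq_smul_basis_det e]
  change G e • e.det (fun j => (f.restrict (hfU i)) (w0 j)) = G e • e.det w0
  have h2 := Basis.det_comp e (f.restrict (hfU i)) w0
  rw [hdet, one_mul] at h2
  rw [← h2]
  rfl

/-- One orbit of blocks. -/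
theorem mil_one (hs : s = 1 ∨ s = -1) (hsy : ∀ x y, B x y = ((s : ℤ) : K) * B y x)
    (hstar : ∀ c, star (star c) = c)
    (horth : ∀ c d, d ≠ star c → ∀ x ∈ U c, ∀ y ∈ U d, B x y = 0)
    {J : Type} [Fintype J] [DecidableEq J] {t : Basis J K T} {κ : J → C}
    (ht : ∀ j, t j ∈ U (κ j))
    (hsp : ∀ c, ∀ x ∈ U c, x ∈ Submodule.span K (t '' {j | κ j = c}))
    {R : Matrix J J K} (hRb : ∀ a b, κ b ≠ star (κ a) → R a b = 0)
    (hQR : (Matrix.of fun i j => B (t i) (t j)) * R = 1) {f : T →ₗ[K] T}
    (hf : ∀ x y, B (f x) (f y) = B x y) (hfU : ∀ c, ∀ x ∈ U c, f x ∈ U c) {i : C}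
    (hfi : ∀ d, d ≠ i → d ≠ star i → ∀ x ∈ U d, f x = x)
    (hdet : s = 1 → star i = i → LinearMap.det (f.restrict (hfU i)) = 1) (N : ℕ) :
    ∀ (S : Type) [Fintype S] [DecidableEq S] (c : S → C)
      (ψ : MultilinearMap K (fun _ : S => T) K), Fintype.card S = N → Sup κ c (fn t ψ) →
      LInv B ((s : ℤ) : K) U star ψ → pre f ψ = ψ := by
  classical
  have hQb : ∀ a b, κ b ≠ star (κ a) → (Matrix.of fun i j => B (t i) (t j)) a b = 0 :=
    fun a b hab => horth (κ a) (κ b) hab _ (ht a) _ (ht b)
  have hQs : ∀ a b, (Matrix.of fun i j => B (t i) (t j)) a b =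
      ((s : ℤ) : K) * (Matrix.of fun i j => B (t i) (t j)) b a := fun a b => hsy _ _
  induction N using Nat.strong_induction_on with
  | _ N ih =>
    intro S _ _ c ψ hN hsup hinv
    have hhinv : LInv B ((s : ℤ) : K) U star (pre f ψ - ψ) := (hinv.pre hf hfU).sub hinv
    have hsupf : Sup κ c (fn t (pre f ψ)) := by
      intro r hr
      push Not at hr
      obtain ⟨j₀, hj₀⟩ := hr
      exact sup_zero hsp hsup (d := fun j => κ (r j)) (fun j => hfU _ _ (ht _)) hj₀
    have hhsup : Sup κ c (fn t (pre f ψ - ψ)) := Sup_sub hsupf hsup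
    -- the contractions vanish
    have hcon : ∀ (i' : C) (a b : S), a ≠ b →
        conS κ R i' a b (fn t (pre f ψ - ψ)) = 0 := by
      intro i' a b hab
      have hlt : Fintype.card {x : S // x ≠ a ∧ x ≠ b} < N := by
        rw [← hN]
        exact Fintype.card_subtype_lt (x := a) (fun h => h.1 rfl)
      have h1 : LInv B ((s : ℤ) : K) U star (cont t κ R i' a b ψ) := by
        refine LInv.of_invS hsp hstar ?_
        rw [fn_cont]
        exact inv_conS hs hstar hQb hQs hQR (hinv.invS ht) hab
      have h2 : Sup κ (fun x : {x : S // x ≠ a ∧ x ≠ b} => c x.1)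
          (fn t (cont t κ R i' a b ψ)) := by
        rw [fn_cont]
        exact sup_conS hsup R
      have h3 := ih _ hlt _ _ _ rfl h2 h1
      rw [← fn_cont]
      have h4 : cont t κ R i' a b (pre f ψ - ψ) = 0 := by
        ext v
        have h5 : cont t κ R i' a b (pre f ψ - ψ) v =
            cont t κ R i' a b (pre f ψ) v - cont t κ R i' a b ψ v := by
          rw [cont_apply, cont_apply, cont_apply]
          simp only [MultilinearMap.sub_apply, mul_sub, Finset.sum_sub_distrib]
        have h6 : cont t κ R i' a b (pre f ψ) v = cont t κ R i' a b ψ fun j => f (v j) := by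
          rw [cont_apply, cont_apply]
          have h7 := cont_isom t ht hsp hQR hf hfU i' (bil ψ hab fun j => f (v j))
          simp only [bil_apply] at h7
          rw [← h7]
          refine Finset.sum_congr rfl fun p _ => Finset.sum_congr rfl fun q _ => ?_
          rw [pre_apply]
          congr 2
          funext z
          unfold ext2
          split_ifs <;> rfl
        rw [h5, h6]
        have h8 := congrArg (fun F => F v) h3
        change cont t κ R i' a b ψ (fun j => f (v j)) = cont t κ R i' a b ψ v at h8
        rw [h8, sub_self]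
        rfl
      rw [h4]
      rfl
    -- it is enough to show that the form vanishes
    suffices h0 : fn t (pre f ψ - ψ) = 0 by
      rw [← sub_eq_zero]
      exact Basis.ext_multilinear (fun _ => t) fun r => congrFun h0 r
    by_cases hex : ∃ a, c a = i ∨ c a = star i
    · obtain ⟨a, ha⟩ := hex
      set i₀ := c a with hi₀
      set A : Finset S := univ.filter (c · = i₀) with hA
      have haA : a ∈ A := by rw [hA, Finset.mem_filter]; exact ⟨mem_univ _, rfl⟩
      -- the Casimir identity
      have hJM : ∀ a' ∈ A, ((((blk κ i₀).card : ℤ) - (if star i₀ = i₀ then s else 0) : ℤ) : K) •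
          fn t (pre f ψ - ψ) + ∑ b ∈ A.erase a', sw (K := K) a' b (fn t (pre f ψ - ψ)) ∈
            (⊥ : Submodule K ((S → J) → K)) := by
        intro a' ha'
        have ha'i : c a' = i₀ := (Finset.mem_filter.1 ha').2
        rw [Submodule.mem_bot]
        funext r
        rw [Pi.add_apply, Pi.smul_apply, Finset.sum_apply, Pi.zero_apply]
        by_cases hr : ∀ j, κ (r j) = c j
        · have h1 := casS (M := K) hs hstar hQb hRb hQR (hhinv.invS ht) hr ha'i
          have h2 : ∑ b ∈ (univ.filter fun j => c j = star i₀).erase a',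
              (Matrix.of fun i j => B (t i) (t j)) (r a') (r b) •
                conS κ R i₀ a' b (fn t (pre f ψ - ψ)) (fun x => r x.1) = 0 := by
            refine Finset.sum_eq_zero fun b hb => ?_
            rw [hcon i₀ a' b (Ne.symm (Finset.mem_erase.1 hb).1), Pi.zero_apply, smul_zero]
          rw [h2, smul_zero] at h1
          exact h1
        · rw [hhsup r hr, smul_zero, zero_add]
          refine Finset.sum_eq_zero fun b hb => ?_
          exact Sup_rho (K := K) (c_swap ha'i
            (Finset.mem_filter.1 (Finset.mem_of_mem_erase hb)).2) hhsup r hr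
      by_cases hexc : (s = 1 ∧ star i₀ = i₀) ∧ A.card = (blk κ i₀).card
      · -- the exceptional case
        obtain ⟨⟨hs1, hst⟩, hcard⟩ := hexc
        have hii : i₀ = i := by
          rcases ha with h | h
          · exact h
          · have h3 : star i₀ = i := by rw [h, hstar]
            rw [← h3, hst]
        have hmem : fn t (pre f ψ - ψ) ∈ LinearMap.ker (altA (K := K) (J := J) A) := by
          rw [LinearMap.mem_ker]
          funext r
          by_cases hr : ∀ j, κ (r j) = c j
          · have h1 : fn t (pre f ψ - ψ) = fn t (pre f ψ) - fn t ψ := rfl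
            rw [h1, map_sub, Pi.sub_apply, Pi.zero_apply, sub_eq_zero]
            refine altA_pre ht hsp hfU (i := i) (fun d hd => hfi d hd ?_) ?_ (by rw [hA, hii])
              (by rw [hcard, hii]) ψ hr
            · rw [← hii, hst, hii]
              exact hd
            · exact hdet hs1 (by rw [← hii]; exact hst)
          · rw [altA_apply, Finset.sum_apply, Pi.zero_apply]
            refine Finset.sum_eq_zero fun π _ => ?_
            rw [Pi.smul_apply, Sup_rho (K := K) ?_ hhsup r hr, smul_zero]
            intro j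
            by_cases hj : j ∈ A
            · rw [Equiv.Perm.ofSubtype_apply_of_mem π hj]
              have h1 : c (π ⟨j, hj⟩ : S) = i₀ := (Finset.mem_filter.1 (π ⟨j, hj⟩).2).2
              have h2 : c j = i₀ := (Finset.mem_filter.1 hj).2
              rw [h1, h2]
            · rw [Equiv.Perm.ofSubtype_apply_of_not_mem π hj]
        have hAm : ∀ x, c x = i₀ → x ∈ A := fun x hx => by
          rw [hA, Finset.mem_filter]
          exact ⟨mem_univ _, hx⟩
        have h1 := alt_mem1 (K := K) (κ := κ) (c := c) (i := i₀) (⊥ : Submodule K ((S → J) → K))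
          (LinearMap.ker (altA (K := K) (J := J) A))
          (fun a b _ _ f hf => by
            rw [Submodule.mem_bot] at hf ⊢
            rw [hf, sw, map_zero]) (blk κ i₀).card rfl A hA
          (fun a b ha hb f hf => altA_ker (hAm a ha) (hAm b hb) hf)
          (if star i₀ = i₀ then s else 0) (Or.inr ⟨by rw [if_pos hst, hs1],
            fun _ w hw _ hw' => by
              rw [Submodule.mem_bot]
              exact eq_zero_of_alt (fun a ha b hb hab => (Submodule.mem_bot K).1
                (hw' a ha b hb hab)) hw⟩) ((blk κ i₀).card + 1) {a}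
          (Finset.singleton_subset_iff.2 haA) ⟨a, Finset.mem_singleton_self a⟩
          (by rw [Finset.card_singleton]; omega) _ hmem hhsup hJM
          (fun x hx y hy hxy => by
            rw [Finset.mem_singleton] at hx hy
            exact absurd (hx.trans hy.symm) hxy)
        exact (Submodule.mem_bot K).1 h1
      · have h1 := alt_mem1 (K := K) (κ := κ) (c := c) (i := i₀) (⊥ : Submodule K ((S → J) → K))
          ⊤
          (fun a b _ _ f hf => by
            rw [Submodule.mem_bot] at hf ⊢
            rw [hf, sw, map_zero]) (blk κ i₀).card rfl A hA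
          (fun _ _ _ _ _ _ => Submodule.mem_top)
          (if star i₀ = i₀ then s else 0) (by
            by_cases h0 : star i₀ = i₀
            · rw [if_pos h0]
              rcases hs with h | h
              · exact Or.inr ⟨h, fun hc => absurd ⟨⟨h, h0⟩, hc⟩ hexc⟩
              · exact Or.inl (by rw [h]; norm_num)
            · rw [if_neg h0]
              exact Or.inl le_rfl) ((blk κ i₀).card + 1) {a}
          (Finset.singleton_subset_iff.2 haA) ⟨a, Finset.mem_singleton_self a⟩
          (by rw [Finset.card_singleton]; omega) _ Submodule.mem_top hhsup hJM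
          (fun x hx y hy hxy => by
            rw [Finset.mem_singleton] at hx hy
            exact absurd (hx.trans hy.symm) hxy)
        exact (Submodule.mem_bot K).1 h1
    · push Not at hex
      funext r
      by_cases hr : ∀ j, κ (r j) = c j
      · change pre f ψ (fun j => t (r j)) - ψ (fun j => t (r j)) = 0
        rw [pre_apply, sub_eq_zero]
        congr 1
        funext j
        refine hfi (κ (r j)) ?_ ?_ _ (ht _)
        · rw [hr]
          exact (hex j).1
        · rw [hr]
          exact (hex j).2
      · exact hhsup r hr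

end Pool.Agent.Y130.MM
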