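import Pool.Agent.Y130.MT.Pub

/-!
# Motives with isolated Frobenius eigenvalues: definitions
-/

set_option linter.unusedSectionVars false

open Module

namespace Pool.Agent.Y130.MM

open Pool.Agent.Y130 Pool.Agent.Y130.MT

variable {K : Type} [Field K] {T : Type} [AddCommGroup T] [Module K T] {E : Type}
  [AddCommGroup E] [Module K E] {Γ G : Type} [Group Γ] [Group G] {C : Type}

/-- The representation `φ ↦ σ(g) ∘ φ ∘ τ(g)⁻¹` on the space of the multilinear maps from `T ^ n` to
`E`, that is on `Hom (T^{⊗ n}, E)`. -/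
def homRep (n : ℕ) (τ : Representation K G T) (σ : Representation K G E) :
    Representation K G (MultilinearMap K (fun _ : Fin n => T) E) where
  toFun g :=
    { toFun := fun φ => (σ g).compMultilinearMap (φ.compLinearMap fun _ => τ g⁻¹)
      map_add' := fun φ φ' => by
        ext v
        simp
      map_smul' := fun c φ => by
        ext v
        simp }
  map_one' := by
    ext φ v
    simp
  map_mul' g h := by
    ext φ v
    simp

/-- All Tate classes in the Tate twists of `E` are motivated: a vector on which a subgroup of finite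
index of the Galois group `Γ` acts through `q ^ j` is a vector on which a subgroup of finite index of
the motivic Galois group `G` acts through `q ^ j`. -/
def TateMotivated (ι : Γ →* G) (q : G →* Kˣ) (σ : Representation K G E) : Prop :=
  ∀ (j : ℤ) (w : E),
    (∃ Δ : Subgroup Γ, Δ.FiniteIndex ∧ ∀ s ∈ Δ, σ (ι s) w = ((q (ι s) ^ j : Kˣ) : K) • w) →
    ∃ Δ : Subgroup G, Δ.FiniteIndex ∧ ∀ g ∈ Δ, σ g w = ((q g ^ j : Kˣ) : K) • w

/-- The eigenvalues of `F` on `E` are in the group `H F`. -/
def EigenvaluesIn (ι : Γ →* G) (H : Γ → Subgroup Kˣ) (σ : Representation K G E) : Prop :=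
  ∀ F β, IsEig (σ (ι F)) β → ∃ u ∈ H F, (u : K) = β

/-- `T` is a motive of weight `w` (a representation `τ` of the motivic Galois group `G`) with a
polarization `B` with values in `1(-w)` (the group acts on `1(-1)` through `q`), which is symmetric
for even and alternating for odd weight.  It is the sum of nonzero subspaces `U c`, stable under the
subgroup `G₀` of finite index, and `U c` is orthogonal to all `U d` except for `d = star c`, where
`star` is an involution.  Each `U c` is irreducible under all subgroups of finite index of the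
Galois group `Γ`, and is a line or contains an isolated eigenvector of some element `F` of `Γ`; and
for `star c ≠ c` some element `F` has independent determinant on `U c`; the group `H F` contains
`q F`. -/
structure IsolatedMotive (ι : Γ →* G) (q : G →* Kˣ) (w : ℕ) (τ : Representation K G T)
    (B : T →ₗ[K] T →ₗ[K] K) (U : C → Submodule K T) (star : C → C) (G₀ : Subgroup G)
    (H : Γ → Subgroup Kˣ) : Prop where
  symm : ∀ x y, B x y = (-1) ^ w * B y x
  nondeg : ∀ x, (∀ y, B x y = 0) → x = 0
  equiv : ∀ g x y, B (τ g x) (τ g y) = (q g : K) ^ w * B x y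
  sup : ⨆ c, U c = ⊤
  ne : ∀ c, U c ≠ ⊥
  star_star : ∀ c, star (star c) = c
  orth : ∀ c d, d ≠ star c → ∀ x ∈ U c, ∀ y ∈ U d, B x y = 0
  index : G₀.FiniteIndex
  stable : ∀ g ∈ G₀, ∀ c, ∀ x ∈ U c, τ g x ∈ U c
  irreducible : ∀ c, ∀ Δ : Subgroup Γ, Δ.FiniteIndex → ∀ P ≤ U c,
    (∀ s ∈ Δ, ∀ x ∈ P, τ (ι s) x ∈ P) → P = ⊥ ∨ P = U c
  tate : ∀ F, q (ι F) ∈ H F
  isolated : ∀ c, finrank K (U c) ≤ 1 ∨ ∃ F a, ∃ v ∈ U c,
    IsolatedEigenvector (τ (ι F)) ((q (ι F) : K) ^ w) (H F) a v
  det : ∀ c, star c ≠ c → ∃ F, IndependentDet (τ (ι F)) U c (star c) (H F)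

end Pool.Agent.Y130.MM
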