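import Pool.Agent.Y130.MM.Final

/-!
# Reflections of the orthogonal blocks, and the sign characters
-/

set_option linter.unusedSectionVars false

open Module Finset Function

namespace Pool.Agent.Y130.MM

open Pool.Agent.Y130 Pool.Agent.Y130.MT Pool.Agent.TH125.Gal Pool.Agent.TH125.Nod

section refl

variable {K : Type} [Field K] [CharZero K] {T : Type} [AddCommGroup T] [Module K T]
  [FiniteDimensional K T] {C : Type} {B : T →ₗ[K] T →ₗ[K] K} {U : C → Submodule K T}
  {star : C → C}

theorem exists_vec (hfam : Fam B U star) (hsy : ∀ x y, B x y = B y x) (hne : ∀ c, U c ≠ ⊥)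
    (c : C) (hc : star c = c) : ∃ v ∈ U c, B v v ≠ 0 := by
  by_contra h
  push Not at h
  apply hne c
  rw [eq_bot_iff]
  intro x hx
  rw [Submodule.mem_bot]
  refine hfam.ext fun d y hy => ?_
  by_cases hd : d = c
  · subst hd
    have h1 := h (x + y) ((U d).add_mem hx hy)
    rw [map_add, map_add, LinearMap.add_apply, LinearMap.add_apply, h x hx, h y hy,
      hsy y x] at h1
    have h2 : (2 : K) * B x y = 0 := by linear_combination h1
    exact (mul_eq_zero.1 h2).resolve_left two_ne_zero
  · exact hfam.orth c d (by rw [hc]; exact hd) x hx y hy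

/-- a reflection in a vector of each orthogonal block -/
theorem exists_refl (hfam : Fam B U star) (hsy : ∀ x y, B x y = B y x) (hne : ∀ c, U c ≠ ⊥) :
    ∃ r : C → (T →ₗ[K] T), (∀ c x, r c (r c x) = x) ∧
      (∀ c d x, r c (r d x) = r d (r c x)) ∧ (∀ c x y, B (r c x) (r c y) = B x y) ∧
      ∃ hU : ∀ c d, ∀ x ∈ U d, r c x ∈ U d, ∀ c d, star c = c →
        ((d = c → LinearMap.det ((r c).restrict (hU c d)) = -1) ∧
          (d ≠ c → LinearMap.det ((r c).restrict (hU c d)) = 1)) := by
  classical
  have hv : ∀ c, ∃ v : T, (star c = c → v ∈ U c ∧ B v v ≠ 0) ∧ (star c ≠ c → v = 0) := by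
    intro c
    by_cases hc : star c = c
    · obtain ⟨v, hv, hvv⟩ := exists_vec hfam hsy hne c hc
      exact ⟨v, fun _ => ⟨hv, hvv⟩, fun h => absurd hc h⟩
    · exact ⟨0, fun h => absurd h hc, fun _ => rfl⟩
  choose v hv1 hv0 using hv
  let f : C → (T →ₗ[K] K) := fun c => (-2 * (B (v c) (v c))⁻¹) • B.flip (v c)
  have hf : ∀ c x, f c x = -2 * (B (v c) (v c))⁻¹ * B x (v c) := fun c x => rfl
  have hfv : ∀ c, v c ≠ 0 → f c (v c) = -2 := by
    intro c h0
    have hc : star c = c := by
      by_contra hc
      exact h0 (hv0 c hc)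
    rw [hf, mul_assoc, inv_mul_cancel₀ (hv1 c hc).2, mul_one]
  have hvd : ∀ c d, c ≠ d → B (v c) (v d) = 0 := by
    intro c d hcd
    by_cases hc : star c = c
    · by_cases hd : star d = d
      · exact hfam.orth c d (by rw [hc]; exact hcd.symm) _ (hv1 c hc).1 _ (hv1 d hd).1
      · rw [hv0 d hd, map_zero]
    · rw [hv0 c hc, map_zero, LinearMap.zero_apply]
  have hfU : ∀ c d, d ≠ c → ∀ x ∈ U d, f c x • v c = 0 := by
    intro c d hdc x hx
    by_cases hc : star c = c
    · have h1 : B x (v c) = 0 := by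
        rw [hsy]
        exact hfam.orth c d (by rw [hc]; exact hdc) _ (hv1 c hc).1 _ hx
      rw [hf, h1, mul_zero, zero_smul]
    · rw [hv0 c hc, smul_zero]
  have hra : ∀ c x, LinearMap.transvection (f c) (v c) x = x + f c x • v c := fun c x => rfl
  have hU : ∀ c d, ∀ x ∈ U d, LinearMap.transvection (f c) (v c) x ∈ U d := by
    intro c d x hx
    rw [hra]
    by_cases hdc : d = c
    · subst hdc
      by_cases hc : star d = d
      · exact (U d).add_mem hx ((U d).smul_mem _ (hv1 d hc).1)
      · rw [hv0 d hc, smul_zero, add_zero]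
        exact hx
    · rw [hfU c d hdc x hx, add_zero]
      exact hx
  refine ⟨fun c => LinearMap.transvection (f c) (v c), ?_, ?_, ?_, hU, ?_⟩
  · intro c x
    rw [hra, hra, map_add, map_smul, smul_eq_mul]
    by_cases h0 : v c = 0
    · rw [h0, smul_zero, smul_zero, add_zero, add_zero]
    · rw [hfv c h0, add_assoc, ← add_smul]
      have : f c x + (f c x + f c x * -2) = 0 := by ring
      rw [this, zero_smul, add_zero]
  · intro c d x
    by_cases hcd : c = d
    · rw [hcd]
    · rw [hra, hra, hra, hra, map_add, map_smul, map_add, map_smul]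
      have h1 : f c (v d) = 0 := by rw [hf, hvd d c (Ne.symm hcd), mul_zero]
      have h2 : f d (v c) = 0 := by rw [hf, hvd c d hcd, mul_zero]
      rw [h1, h2, smul_zero, smul_zero, add_zero, add_zero]
      abel
  · intro c x y
    rw [hra, hra]
    by_cases h0 : v c = 0
    · rw [h0, smul_zero, smul_zero, add_zero, add_zero]
    · have hc : star c = c := by
        by_contra hc
        exact h0 (hv0 c hc)
      have h1 := (hv1 c hc).2
      simp only [map_add, map_smul, LinearMap.add_apply, LinearMap.smul_apply, smul_eq_mul, hf]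
      rw [hsy (v c) y]
      field_simp
      ring
  · intro c d hc
    refine ⟨fun hdc => ?_, fun hdc => ?_⟩
    · subst hdc
      have h1 : (LinearMap.transvection (f d) (v d)).restrict (hU d d) =
          LinearMap.transvection ((f d).comp (U d).subtype) ⟨v d, (hv1 d hc).1⟩ := by
        ext x
        rfl
      change LinearMap.det ((LinearMap.transvection (f d) (v d)).restrict (hU d d)) = -1
      rw [h1, LinearMap.transvection.det, LinearMap.comp_apply]
      change 1 + f d (v d) = -1
      have h0 : v d ≠ 0 := by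
        intro h0
        apply (hv1 d hc).2
        rw [h0, map_zero]
      rw [hfv d h0]
      norm_num
    · have h1 : (LinearMap.transvection (f c) (v c)).restrict (hU c d) = LinearMap.id := by
        ext x
        change (x : T) + f c x • v c = x
        rw [hfU c d hdc x x.2, add_zero]
      change LinearMap.det ((LinearMap.transvection (f c) (v c)).restrict (hU c d)) = 1
      rw [h1, LinearMap.det_id]

/-- the operators which respect the blocks act on a sign eigenform by a product of determinants -/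
theorem act_sign [Finite C] (hfam : Fam B U star) (hsy : ∀ x y, B x y = B y x)
    {r : C → (T →ₗ[K] T)} (hrB : ∀ c x y, B (r c x) (r c y) = B x y)
    (hU : ∀ c d, ∀ x ∈ U d, r c x ∈ U d)
    (hd1 : ∀ c, star c = c → LinearMap.det ((r c).restrict (hU c c)) = -1)
    (hd2 : ∀ c d, star c = c → d ≠ c → LinearMap.det ((r c).restrict (hU c d)) = 1)
    {S : Type} [Fintype S] [DecidableEq S] (ψ : MultilinearMap K (fun _ : S => T) K)
    (hψ : LInv B 1 U star ψ) (A : Finset C) (hAs : ∀ c ∈ A, star c = c)
    (hA1 : ∀ c ∈ A, pre (r c) ψ = -ψ)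
    (hA2 : ∀ c, star c = c → c ∉ A → pre (r c) ψ = ψ) (n : ℕ) :
    ∀ (f : T →ₗ[K] T) (_ : ∀ x y, B (f x) (f y) = B x y) (hfU : ∀ c, ∀ x ∈ U c, f x ∈ U c),
      Set.ncard {c | star c = c ∧ LinearMap.det (f.restrict (hfU c)) ≠ 1} = n →
      pre f ψ = (∏ c ∈ A, LinearMap.det (f.restrict (hfU c))) • ψ := by
  classical
  have hs1 : ((1 : ℤ) : K) = 1 := Int.cast_one
  induction n with
  | zero =>
    intro f hf hfU h0
    rw [Set.ncard_eq_zero] at h0
    have h1 : ∀ c, star c = c → LinearMap.det (f.restrict (hfU c)) = 1 := by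
      intro c hc
      by_contra h
      have : c ∈ ({c | star c = c ∧ LinearMap.det (f.restrict (hfU c)) ≠ 1} : Set C) := ⟨hc, h⟩
      rw [h0] at this
      exact this
    have h2 := mil (s := 1) (Or.inl rfl) (fun x y => by rw [hs1, one_mul]; exact hsy x y) hfam
      hf hfU (fun c _ hc => h1 c hc) ψ (by rw [hs1]; exact hψ)
    rw [h2, Finset.prod_eq_one fun c hc => h1 c (hAs c hc), one_smul]
  | succ n ih =>
    intro f hf hfU hn
    obtain ⟨c, hc⟩ : Set.Nonempty {c | star c = c ∧ LinearMap.det (f.restrict (hfU c)) ≠ 1} := by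
      rw [← Set.ncard_pos]
      omega
    have hfB' : ∀ x y, B ((r c ∘ₗ f) x) ((r c ∘ₗ f) y) = B x y := fun x y => by
      rw [LinearMap.comp_apply, LinearMap.comp_apply, hrB, hf]
    have hfU' : ∀ d, ∀ x ∈ U d, (r c ∘ₗ f) x ∈ U d := fun d x hx => hU c d _ (hfU d x hx)
    have hdet : ∀ d, LinearMap.det ((r c ∘ₗ f).restrict (hfU' d)) =
        LinearMap.det ((r c).restrict (hU c d)) * LinearMap.det (f.restrict (hfU d)) := by
      intro d
      rw [← LinearMap.det_comp]
      rfl
    have hc1 : LinearMap.det (f.restrict (hfU c)) = -1 := by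
      have h1 := det_sq hfam hc.1 (m := 1) (fun x y => by rw [one_mul]; exact hf x y) (hfU c)
      rw [one_pow] at h1
      have h2 : (LinearMap.det (f.restrict (hfU c)) - 1) *
          (LinearMap.det (f.restrict (hfU c)) + 1) = 0 := by linear_combination h1
      exact eq_neg_of_add_eq_zero_left
        ((mul_eq_zero.1 h2).resolve_left fun h => hc.2 (sub_eq_zero.1 h))
    have h1 := ih (r c ∘ₗ f) hfB' hfU' (by
      have h2 : {d | star d = d ∧ LinearMap.det ((r c ∘ₗ f).restrict (hfU' d)) ≠ 1} =
          {d | star d = d ∧ LinearMap.det (f.restrict (hfU d)) ≠ 1} \ {c} := by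
        ext d
        simp only [Set.mem_ofPred_eq, Set.mem_sdiff, Set.mem_singleton_iff]
        by_cases hdc : d = c
        · subst hdc
          rw [hdet, hd1 d hc.1, hc1]
          norm_num
        · rw [hdet, hd2 c d hc.1 hdc, one_mul]
          tauto
      rw [h2, Set.ncard_sdiff_singleton_of_mem hc, hn]
      rfl)
    rw [pre_comp, Finset.prod_congr rfl fun d _ => hdet d, Finset.prod_mul_distrib] at h1
    by_cases hcA : c ∈ A
    · have h2 : ∏ d ∈ A, LinearMap.det ((r c).restrict (hU c d)) = -1 := by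
        rw [Finset.prod_eq_single c (fun d _ hdc => hd2 c d hc.1 hdc)
          (fun h => absurd hcA h), hd1 c hc.1]
      rw [h2, hA1 c hcA] at h1
      have h3 : pre f (-ψ) = -pre f ψ := rfl
      rw [h3, neg_one_mul] at h1
      ext v
      have h4 := congrArg (fun F => F v) h1
      change -(pre f ψ v) = (-∏ d ∈ A, LinearMap.det (f.restrict (hfU d))) * ψ v at h4
      change pre f ψ v = (∏ d ∈ A, LinearMap.det (f.restrict (hfU d))) * ψ v
      linear_combination -h4
    · have h2 : ∏ d ∈ A, LinearMap.det ((r c).restrict (hU c d)) = 1 :=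
        Finset.prod_eq_one fun d hd => hd2 c d hc.1 fun h => hcA (h ▸ hd)
      rw [h2, one_mul, hA2 c hc.1 hcA] at h1
      exact h1

/-- decomposition into sign eigenforms -/
theorem mem_span_sign [DecidableEq C] {r : C → (T →ₗ[K] T)} (hr2 : ∀ c x, r c (r c x) = x)
    (hrc : ∀ c d x, r c (r d x) = r d (r c x)) {S : Type}
    (P : Submodule K (MultilinearMap K (fun _ : S => T) K))
    (hP : ∀ c, ∀ ψ ∈ P, pre (r c) ψ ∈ P) (O : Finset C) :
    ∀ ψ ∈ P, ψ ∈ Submodule.span K {φ | φ ∈ P ∧ ∃ A ⊆ O, (∀ c ∈ A, pre (r c) φ = -φ) ∧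
      ∀ c ∈ O, c ∉ A → pre (r c) φ = φ} := by
  induction O using Finset.induction_on with
  | empty =>
    intro ψ hψ
    exact Submodule.subset_span ⟨hψ, ∅, subset_rfl, fun c hc => absurd hc (Finset.notMem_empty c),
      fun c hc => absurd hc (Finset.notMem_empty c)⟩
  | insert c O hc ih =>
    intro ψ hψ
    refine Submodule.span_le.2 ?_ (ih ψ hψ)
    rintro φ ⟨hφ, A, hAO, hA1, hA2⟩
    have hinv : pre (r c) (pre (r c) φ) = φ := by
      ext v
      change φ (fun j => r c (r c (v j))) = φ v
      congr 1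
      funext j
      exact hr2 c (v j)
    have hcomm : ∀ d, pre (r d) (pre (r c) φ) = pre (r c) (pre (r d) φ) := by
      intro d
      ext v
      change φ (fun j => r c (r d (v j))) = φ (fun j => r d (r c (v j)))
      congr 1
      funext j
      exact hrc c d (v j)
    have hpl : ∀ (f : T →ₗ[K] T) (a b : MultilinearMap K (fun _ : S => T) K),
        pre f (a + b) = pre f a + pre f b := fun f a b => rfl
    have hpn : ∀ (f : T →ₗ[K] T) (a : MultilinearMap K (fun _ : S => T) K),
        pre f (-a) = -pre f a := fun f a => rfl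
    have h2 : φ = (2 : K)⁻¹ • (φ + pre (r c) φ) + (2 : K)⁻¹ • (φ + -pre (r c) φ) := by
      rw [← smul_add]
      have : (φ + pre (r c) φ) + (φ + -pre (r c) φ) = (2 : K) • φ := by
        rw [two_smul]
        abel
      rw [this, smul_smul, inv_mul_cancel₀ two_ne_zero, one_smul]
    rw [SetLike.mem_coe, h2]
    refine Submodule.add_mem _ (Submodule.smul_mem _ _ (Submodule.subset_span
      ⟨P.add_mem hφ (hP c φ hφ), A, hAO.trans (Finset.subset_insert c O), ?_, ?_⟩))
      (Submodule.smul_mem _ _ (Submodule.subset_span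
      ⟨P.add_mem hφ (P.neg_mem (hP c φ hφ)), insert c A, Finset.insert_subset_insert c hAO,
        ?_, ?_⟩))
    · intro d hd
      rw [hpl, hcomm, hA1 d hd, hpn, neg_add]
    · intro d hd hdA
      rw [hpl]
      rcases Finset.mem_insert.1 hd with rfl | hdO
      · rw [hinv, add_comm]
      · rw [hcomm, hA2 d hdO hdA]
    · intro d hd
      rw [hpl, hpn]
      rcases Finset.mem_insert.1 hd with rfl | hdA
      · rw [hinv, neg_add, neg_neg, add_comm]
      · rw [hcomm, hA1 d hdA, hpn, neg_add]
    · intro d hd hdA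
      rw [Finset.mem_insert, not_or] at hdA
      rcases Finset.mem_insert.1 hd with rfl | hdO
      · exact absurd rfl hdA.1
      · rw [hpl, hpn, hcomm, hA2 d hdO hdA.2]

end refl

end Pool.Agent.Y130.MM
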